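import Mathlib

/-!
# The inequality for the centre map

The integrals are taken over a period; `a + i b` is the curve `k cos (θ - φ) + i sin (θ - φ)`.
-/

set_option autoImplicit false
set_option linter.unreachableTactic false
set_option linter.unusedTactic false

open Real MeasureTheory Set Filter Topology

namespace Pool.Agent.Q183.CAP

/-- bounded measurable functions -/
def BM (f : ℝ → ℝ) : Prop := Measurable f ∧ ∃ C, ∀ θ, |f θ| ≤ C

theorem BM.const (c : ℝ) : BM fun _ => c := ⟨measurable_const, |c|, fun _ => le_rfl⟩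

theorem BM.add {f g : ℝ → ℝ} (hf : BM f) (hg : BM g) : BM fun θ => f θ + g θ := by
  obtain ⟨h1, C, hC⟩ := hf
  obtain ⟨h2, C', hC'⟩ := hg
  exact ⟨h1.add h2, C + C', fun θ => (abs_add_le _ _).trans (add_le_add (hC θ) (hC' θ))⟩

theorem BM.sub {f g : ℝ → ℝ} (hf : BM f) (hg : BM g) : BM fun θ => f θ - g θ := by
  obtain ⟨h1, C, hC⟩ := hf
  obtain ⟨h2, C', hC'⟩ := hg
  exact ⟨h1.sub h2, C + C', fun θ => (abs_sub _ _).trans (add_le_add (hC θ) (hC' θ))⟩

theorem BM.mul {f g : ℝ → ℝ} (hf : BM f) (hg : BM g) : BM fun θ => f θ * g θ := by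
  obtain ⟨h1, C, hC⟩ := hf
  obtain ⟨h2, C', hC'⟩ := hg
  refine ⟨h1.mul h2, C * C', fun θ => ?_⟩
  rw [abs_mul]
  exact mul_le_mul (hC θ) (hC' θ) (abs_nonneg _) ((abs_nonneg _).trans (hC θ))

theorem BM.pow {f : ℝ → ℝ} (hf : BM f) (n : ℕ) : BM fun θ => f θ ^ n := by
  induction n with
  | zero => simpa using BM.const 1
  | succ n ih =>
    simp_rw [pow_succ]
    exact ih.mul hf

theorem BM.neg {f : ℝ → ℝ} (hf : BM f) : BM fun θ => - f θ := by
  obtain ⟨h1, C, hC⟩ := hf
  exact ⟨h1.neg, C, fun θ => by rw [abs_neg]; exact hC θ⟩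

theorem BM.int {f : ℝ → ℝ} (hf : BM f) (a b : ℝ) : IntervalIntegrable f volume a b := by
  obtain ⟨h1, C, hC⟩ := hf
  exact (intervalIntegrable_const (c := C)).mono_fun' h1.aestronglyMeasurable
    (ae_of_all _ fun θ => hC θ)

/-- the integral over a period -/
noncomputable def II (f : ℝ → ℝ) : ℝ := ∫ θ in (0 : ℝ)..(2 * π), f θ

theorem II_congr {f g : ℝ → ℝ} (h : ∀ θ, f θ = g θ) : II f = II g := by
  rw [show f = g from funext h]

theorem II_add {f g : ℝ → ℝ} (hf : BM f) (hg : BM g) : II (fun θ => f θ + g θ) = II f + II g :=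
  intervalIntegral.integral_add (hf.int _ _) (hg.int _ _)

theorem II_mul (c : ℝ) (f : ℝ → ℝ) : II (fun θ => c * f θ) = c * II f :=
  intervalIntegral.integral_const_mul _ _

theorem II_lin2 {F f g : ℝ → ℝ} (hf : BM f) (hg : BM g) (c d : ℝ)
    (h : ∀ θ, F θ = c * f θ + d * g θ) : II F = c * II f + d * II g := by
  rw [II_congr h, II_add ((BM.const c).mul hf) ((BM.const d).mul hg), II_mul, II_mul]

theorem II_lin3 {F f g e : ℝ → ℝ} (hf : BM f) (hg : BM g) (he : BM e) (c d l : ℝ)
    (h : ∀ θ, F θ = c * f θ + d * g θ + l * e θ) : II F = c * II f + d * II g + l * II e := by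
  rw [II_congr h, II_add (((BM.const c).mul hf).add ((BM.const d).mul hg)) ((BM.const l).mul he),
    II_add ((BM.const c).mul hf) ((BM.const d).mul hg), II_mul, II_mul, II_mul]

theorem II_nonneg {f : ℝ → ℝ} (h : ∀ θ, 0 ≤ f θ) : 0 ≤ II f :=
  intervalIntegral.integral_nonneg (by positivity) fun θ _ => h θ

theorem II_mono {f g : ℝ → ℝ} (hf : BM f) (hg : BM g) (h : ∀ θ, f θ ≤ g θ) : II f ≤ II g :=
  intervalIntegral.integral_mono (by positivity) (hf.int _ _) (hg.int _ _) h

theorem II_one (c : ℝ) : II (fun _ => c) = 2 * π * c := by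
  unfold II
  rw [intervalIntegral.integral_const, sub_zero, smul_eq_mul]

/-- The Cauchy-Schwarz inequality with a weight. -/
theorem II_cs {f g w : ℝ → ℝ} (hf : BM f) (hg : BM g) (hw : BM w) (h0 : ∀ θ, 0 ≤ w θ) :
    II (fun θ => f θ * g θ * w θ) ^ 2 ≤ II (fun θ => f θ ^ 2 * w θ) * II (fun θ => g θ ^ 2 * w θ) := by
  have h1 : ∀ t : ℝ, 0 ≤ II (fun θ => g θ ^ 2 * w θ) * (t * t) +
      (-2 * II (fun θ => f θ * g θ * w θ)) * t + II (fun θ => f θ ^ 2 * w θ) := by
    intro t
    have h2 : II (fun θ => (f θ - t * g θ) ^ 2 * w θ) = (t * t) * II (fun θ => g θ ^ 2 * w θ) +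
        (-2 * t) * II (fun θ => f θ * g θ * w θ) + 1 * II (fun θ => f θ ^ 2 * w θ) := by
      apply II_lin3
      · (repeat' (first | assumption | apply BM.add | apply BM.sub | apply BM.mul | apply BM.pow | apply BM.neg | apply BM.const))
      · (repeat' (first | assumption | apply BM.add | apply BM.sub | apply BM.mul | apply BM.pow | apply BM.neg | apply BM.const))
      · (repeat' (first | assumption | apply BM.add | apply BM.sub | apply BM.mul | apply BM.pow | apply BM.neg | apply BM.const))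
      · intro θ
        ring
    have h3 : 0 ≤ II (fun θ => (f θ - t * g θ) ^ 2 * w θ) :=
      II_nonneg fun θ => mul_nonneg (sq_nonneg _) (h0 θ)
    rw [h2] at h3
    linarith
  have h2 := discrim_le_zero h1
  unfold discrim at h2
  linarith [show (-2 * II (fun θ => f θ * g θ * w θ)) ^ 2 - 4 * II (fun θ => g θ ^ 2 * w θ) *
    II (fun θ => f θ ^ 2 * w θ) = 4 * (II (fun θ => f θ * g θ * w θ) ^ 2 -
    II (fun θ => f θ ^ 2 * w θ) * II (fun θ => g θ ^ 2 * w θ)) by ring]

/-- The algebra behind the inequality. -/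
theorem alg {a b u v p q : ℝ → ℝ} (ha : BM a) (hb : BM b) (hu : BM u) (hv : BM v) (hp : BM p)
    (hq : BM q) {s ρ : ℝ} (hs : 2 * s ^ 2 ≤ 1) (hρ : ρ ^ 2 < 1)
    (hv1 : ∀ θ, (a θ ^ 2 + b θ ^ 2) * v θ = 1)
    (hD : ∀ θ, a θ ^ 2 + b θ ^ 2 = 1 - (s * a θ) ^ 2)
    (hur : ∀ θ, u θ ^ 2 ≤ ρ ^ 2) (hpq : ∀ θ, p θ ^ 2 + q θ ^ 2 ≤ 1 - u θ ^ 2)
    (e1 : II (fun θ => (a θ ^ 2 - b θ ^ 2) * v θ ^ 2) = 0)
    (e2 : II (fun θ => a θ * b θ * v θ ^ 2) = 0)
    (e3 : II (fun θ => ((a θ ^ 3 - 3 * a θ * b θ ^ 2) ^ 2 - (3 * a θ ^ 2 * b θ - b θ ^ 3) ^ 2)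
      * v θ ^ 4) = 0)
    (e4 : II (fun θ => (a θ ^ 3 - 3 * a θ * b θ ^ 2) * (3 * a θ ^ 2 * b θ - b θ ^ 3)
      * v θ ^ 4) = 0)
    (s1 : II (fun θ => (u θ + s * a θ) * a θ * v θ ^ 2) = 0)
    (s2 : II (fun θ => (u θ + s * a θ) * b θ * v θ ^ 2) = 0)
    {x₁ x₂ y₁ y₂ : ℝ}
    (t1 : II (fun θ => ((1 + 3 * (s * a θ) ^ 2 + 4 * u θ * (s * a θ)) * v θ ^ 3 *
      (x₁ * a θ + x₂ * b θ) + p θ * v θ ^ 2) * a θ) = 0)
    (t2 : II (fun θ => ((1 + 3 * (s * a θ) ^ 2 + 4 * u θ * (s * a θ)) * v θ ^ 3 *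
      (x₁ * a θ + x₂ * b θ) + p θ * v θ ^ 2) * b θ) = 0)
    (t3 : II (fun θ => ((1 + 3 * (s * a θ) ^ 2 + 4 * u θ * (s * a θ)) * v θ ^ 3 *
      (y₁ * a θ + y₂ * b θ) + q θ * v θ ^ 2) * a θ) = 0)
    (t4 : II (fun θ => ((1 + 3 * (s * a θ) ^ 2 + 4 * u θ * (s * a θ)) * v θ ^ 3 *
      (y₁ * a θ + y₂ * b θ) + q θ * v θ ^ 2) * b θ) = 0) :
    x₁ * y₂ - x₂ * y₁ ≤ 1 := by
  -- notation
  set I0 := II v with hI0
  set N11 := II (fun θ => (1 + 3 * (s * a θ) ^ 2 + 4 * u θ * (s * a θ)) * v θ ^ 3 * a θ ^ 2) with hN11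
  set N12 := II (fun θ => (1 + 3 * (s * a θ) ^ 2 + 4 * u θ * (s * a θ)) * v θ ^ 3 * (a θ * b θ))
    with hN12
  set N22 := II (fun θ => (1 + 3 * (s * a θ) ^ 2 + 4 * u θ * (s * a θ)) * v θ ^ 3 * b θ ^ 2) with hN22
  set J1 := II (fun θ => (u θ + s * a θ) * (a θ ^ 3 - 3 * a θ * b θ ^ 2) * v θ ^ 3) with hJ1
  set J2 := II (fun θ => (u θ + s * a θ) * (3 * a θ ^ 2 * b θ - b θ ^ 3) * v θ ^ 3) with hJ2
  set Sg := II (fun θ => (u θ + s * a θ) ^ 2 * v θ ^ 2) with hSg
  set A1 := II (fun θ => p θ * v θ ^ 2 * a θ) with hA1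
  set B1 := II (fun θ => p θ * v θ ^ 2 * b θ) with hB1
  set A2 := II (fun θ => q θ * v θ ^ 2 * a θ) with hA2
  set B2 := II (fun θ => q θ * v θ ^ 2 * b θ) with hB2
  set V := II (fun θ => (1 - u θ ^ 2) * v θ ^ 2) with hV
  have hDv : ∀ θ, 1 - (s * a θ) ^ 2 = a θ ^ 2 + b θ ^ 2 := fun θ => (hD θ).symm
  have hDpos : ∀ θ, 0 < a θ ^ 2 + b θ ^ 2 := by
    intro θ
    have h := hv1 θ
    rcases (add_nonneg (sq_nonneg (a θ)) (sq_nonneg (b θ))).lt_or_eq with h1 | h1
    · exact h1
    · rw [← h1, zero_mul] at h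
      exact absurd h zero_ne_one
  have hvpos : ∀ θ, 0 < v θ := by
    intro θ
    by_contra h1
    push Not at h1
    have := mul_nonpos_of_nonneg_of_nonpos (hDpos θ).le h1
    rw [hv1 θ] at this
    linarith
  have hv_ge : ∀ θ, 1 ≤ v θ := by
    intro θ
    have h1 := hD θ
    have h2 := hv1 θ
    have h3 := hvpos θ
    have h4 : (a θ ^ 2 + b θ ^ 2) * v θ ≤ 1 * v θ :=
      mul_le_mul_of_nonneg_right (by linarith [sq_nonneg (s * a θ)]) h3.le
    linarith
  -- trace
  have htr : N11 + N22 = I0 := by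
    have h1 : II (fun θ => (1 + 3 * (s * a θ) ^ 2 + 4 * u θ * (s * a θ)) * v θ ^ 3 *
        (a θ ^ 2 + b θ ^ 2)) = 1 * N11 + 1 * N22 := by
      apply II_lin2
      · (repeat' (first | assumption | apply BM.add | apply BM.sub | apply BM.mul | apply BM.pow | apply BM.neg | apply BM.const))
      · (repeat' (first | assumption | apply BM.add | apply BM.sub | apply BM.mul | apply BM.pow | apply BM.neg | apply BM.const))
      · intro θ; ring
    have h2 : II (fun θ => (1 + 3 * (s * a θ) ^ 2 + 4 * u θ * (s * a θ)) * v θ ^ 3 *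
        (a θ ^ 2 + b θ ^ 2)) = 1 * I0 + (4 * s) * II (fun θ => (u θ + s * a θ) * a θ * v θ ^ 2) := by
      apply II_lin2
      · (repeat' (first | assumption | apply BM.add | apply BM.sub | apply BM.mul | apply BM.pow | apply BM.neg | apply BM.const))
      · (repeat' (first | assumption | apply BM.add | apply BM.sub | apply BM.mul | apply BM.pow | apply BM.neg | apply BM.const))
      · intro θ
        have h3 := hv1 θ
        have h4 := hD θ
        have h5 : 1 + 3 * (s * a θ) ^ 2 + 4 * u θ * (s * a θ)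
          = (a θ ^ 2 + b θ ^ 2) + 4 * (s * a θ) * (u θ + s * a θ) := by linear_combination -h4
        rw [h5]
        linear_combination ((a θ ^ 2 + b θ ^ 2) * v θ ^ 2 + 4 * (s * a θ) * (u θ + s * a θ) * v θ ^ 2
          + v θ) * h3
    rw [s1] at h2
    linarith
  -- the traceless part
  have hd1 : N11 - N22 = 2 * s * J1 := by
    have h1 : II (fun θ => (1 + 3 * (s * a θ) ^ 2 + 4 * u θ * (s * a θ)) * v θ ^ 3 *
        (a θ ^ 2 - b θ ^ 2)) = 1 * N11 + (-1) * N22 := by
      apply II_lin2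
      · (repeat' (first | assumption | apply BM.add | apply BM.sub | apply BM.mul | apply BM.pow | apply BM.neg | apply BM.const))
      · (repeat' (first | assumption | apply BM.add | apply BM.sub | apply BM.mul | apply BM.pow | apply BM.neg | apply BM.const))
      · intro θ; ring
    have h2 : II (fun θ => (1 + 3 * (s * a θ) ^ 2 + 4 * u θ * (s * a θ)) * v θ ^ 3 *
        (a θ ^ 2 - b θ ^ 2)) = 1 * II (fun θ => (a θ ^ 2 - b θ ^ 2) * v θ ^ 2) + (2 * s) * J1
          + (2 * s) * II (fun θ => (u θ + s * a θ) * a θ * v θ ^ 2) := by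
      apply II_lin3
      · (repeat' (first | assumption | apply BM.add | apply BM.sub | apply BM.mul | apply BM.pow | apply BM.neg | apply BM.const))
      · (repeat' (first | assumption | apply BM.add | apply BM.sub | apply BM.mul | apply BM.pow | apply BM.neg | apply BM.const))
      · (repeat' (first | assumption | apply BM.add | apply BM.sub | apply BM.mul | apply BM.pow | apply BM.neg | apply BM.const))
      · intro θ
        have h3 := hv1 θ
        have h4 := hD θ
        have h5 : 1 + 3 * (s * a θ) ^ 2 + 4 * u θ * (s * a θ)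
          = (a θ ^ 2 + b θ ^ 2) + 4 * (s * a θ) * (u θ + s * a θ) := by linear_combination -h4
        rw [h5]
        linear_combination ((a θ ^ 2 - b θ ^ 2) * v θ ^ 2 +
          2 * s * (u θ + s * a θ) * a θ * v θ ^ 2) * h3
    rw [s1, e1] at h2
    linarith
  have hd2 : 2 * N12 = 2 * s * J2 := by
    have h2 : N12 = 1 * II (fun θ => a θ * b θ * v θ ^ 2) + s * J2
          + s * II (fun θ => (u θ + s * a θ) * b θ * v θ ^ 2) := by
      apply II_lin3
      · (repeat' (first | assumption | apply BM.add | apply BM.sub | apply BM.mul | apply BM.pow | apply BM.neg | apply BM.const))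
      · (repeat' (first | assumption | apply BM.add | apply BM.sub | apply BM.mul | apply BM.pow | apply BM.neg | apply BM.const))
      · (repeat' (first | assumption | apply BM.add | apply BM.sub | apply BM.mul | apply BM.pow | apply BM.neg | apply BM.const))
      · intro θ
        have h3 := hv1 θ
        have h4 := hD θ
        have h5 : 1 + 3 * (s * a θ) ^ 2 + 4 * u θ * (s * a θ)
          = (a θ ^ 2 + b θ ^ 2) + 4 * (s * a θ) * (u θ + s * a θ) := by linear_combination -h4
        rw [h5]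
        linear_combination (a θ * b θ * v θ ^ 2 + s * (u θ + s * a θ) * b θ * v θ ^ 2) * h3
    rw [s2, e2] at h2
    linarith
  -- the bound for J
  have hSg0 : 0 ≤ Sg := II_nonneg fun θ => by positivity
  have hI00 : 2 * π ≤ I0 := by
    have h1 := II_mono (BM.const 1) hv hv_ge
    rw [II_one] at h1
    linarith
  have hI0pos : 0 < I0 := lt_of_lt_of_le (by positivity) hI00
  have hJ : J1 ^ 2 + J2 ^ 2 ≤ I0 * Sg / 2 := by
    set w := J1 ^ 2 + J2 ^ 2 with hw
    have h1 : II (fun θ => (u θ + s * a θ) * v θ * ((J1 * (a θ ^ 3 - 3 * a θ * b θ ^ 2) +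
        J2 * (3 * a θ ^ 2 * b θ - b θ ^ 3)) * v θ ^ 2) * 1) = J1 * J1 + J2 * J2 := by
      apply II_lin2
      · (repeat' (first | assumption | apply BM.add | apply BM.sub | apply BM.mul | apply BM.pow | apply BM.neg | apply BM.const))
      · (repeat' (first | assumption | apply BM.add | apply BM.sub | apply BM.mul | apply BM.pow | apply BM.neg | apply BM.const))
      · intro θ; ring
    have h2 := II_cs (f := fun θ => (u θ + s * a θ) * v θ) (g := fun θ =>
      (J1 * (a θ ^ 3 - 3 * a θ * b θ ^ 2) + J2 * (3 * a θ ^ 2 * b θ - b θ ^ 3)) * v θ ^ 2)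
      (w := fun _ => 1) (by (repeat' (first | assumption | apply BM.add | apply BM.sub | apply BM.mul | apply BM.pow | apply BM.neg | apply BM.const))) (by (repeat' (first | assumption | apply BM.add | apply BM.sub | apply BM.mul | apply BM.pow | apply BM.neg | apply BM.const))) (by (repeat' (first | assumption | apply BM.add | apply BM.sub | apply BM.mul | apply BM.pow | apply BM.neg | apply BM.const))) (fun _ => zero_le_one)
    rw [h1] at h2
    have h3 : II (fun θ => ((u θ + s * a θ) * v θ) ^ 2 * 1) = Sg := II_congr fun θ => by ring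
    have h4 : II (fun θ => ((J1 * (a θ ^ 3 - 3 * a θ * b θ ^ 2) +
        J2 * (3 * a θ ^ 2 * b θ - b θ ^ 3)) * v θ ^ 2) ^ 2 * 1) = (w / 2) * I0 +
        ((J1 ^ 2 - J2 ^ 2) / 2) * II (fun θ => ((a θ ^ 3 - 3 * a θ * b θ ^ 2) ^ 2 -
          (3 * a θ ^ 2 * b θ - b θ ^ 3) ^ 2) * v θ ^ 4) +
        (2 * J1 * J2) * II (fun θ => (a θ ^ 3 - 3 * a θ * b θ ^ 2) *
          (3 * a θ ^ 2 * b θ - b θ ^ 3) * v θ ^ 4) := by
      apply II_lin3
      · (repeat' (first | assumption | apply BM.add | apply BM.sub | apply BM.mul | apply BM.pow | apply BM.neg | apply BM.const))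
      · (repeat' (first | assumption | apply BM.add | apply BM.sub | apply BM.mul | apply BM.pow | apply BM.neg | apply BM.const))
      · (repeat' (first | assumption | apply BM.add | apply BM.sub | apply BM.mul | apply BM.pow | apply BM.neg | apply BM.const))
      · intro θ
        have h5 := hv1 θ
        have h6 : v θ = (a θ ^ 2 + b θ ^ 2) ^ 3 * v θ ^ 4 := by
          linear_combination (-(v θ) - (a θ ^ 2 + b θ ^ 2) * v θ ^ 2 -
            (a θ ^ 2 + b θ ^ 2) ^ 2 * v θ ^ 3) * h5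
        have h7 : (a θ ^ 3 - 3 * a θ * b θ ^ 2) ^ 2 + (3 * a θ ^ 2 * b θ - b θ ^ 3) ^ 2 =
          (a θ ^ 2 + b θ ^ 2) ^ 3 := by ring
        rw [hw]
        linear_combination ((J1 ^ 2 + J2 ^ 2) / 2) * v θ ^ 4 * h7 - (J1 ^ 2 + J2 ^ 2) / 2 * h6
    rw [h3, h4, e3, e4] at h2
    have h5 : 0 ≤ w := by positivity
    rcases h5.lt_or_eq with h6 | h6
    · have h7 : w * w ≤ w * (I0 * Sg / 2) := by
        have : J1 * J1 + J2 * J2 = w := by rw [hw]; ring
        rw [this, mul_zero, mul_zero, add_zero, add_zero] at h2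
        calc w * w = w ^ 2 := by ring
          _ ≤ Sg * (w / 2 * I0) := h2
          _ = w * (I0 * Sg / 2) := by ring
      exact le_of_mul_le_mul_left h7 h6
    · rw [← h6]
      positivity
  -- the area term
  have hVeq : V = I0 - Sg := by
    have h1 : V = 1 * I0 + (-1) * Sg + (2 * s) * II (fun θ => (u θ + s * a θ) * a θ * v θ ^ 2) := by
      apply II_lin3
      · (repeat' (first | assumption | apply BM.add | apply BM.sub | apply BM.mul | apply BM.pow | apply BM.neg | apply BM.const))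
      · (repeat' (first | assumption | apply BM.add | apply BM.sub | apply BM.mul | apply BM.pow | apply BM.neg | apply BM.const))
      · (repeat' (first | assumption | apply BM.add | apply BM.sub | apply BM.mul | apply BM.pow | apply BM.neg | apply BM.const))
      · intro θ
        have h3 := hv1 θ
        have h4 := hD θ
        linear_combination (-(v θ ^ 2)) * h4 + v θ * h3
    rw [s1] at h1
    linarith
  have hVpos : 0 < V := by
    have h1 : II (fun _ : ℝ => (1 - ρ ^ 2)) ≤ V := by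
      apply II_mono (BM.const _) (by (repeat' (first | assumption | apply BM.add | apply BM.sub | apply BM.mul | apply BM.pow | apply BM.neg | apply BM.const)))
      intro θ
      have h2 := hur θ
      have h3 := hv_ge θ
      have h4 : 1 ≤ v θ ^ 2 := one_le_pow₀ h3
      have h5 : 0 ≤ 1 - u θ ^ 2 := by linarith
      calc 1 - ρ ^ 2 ≤ (1 - u θ ^ 2) * 1 := by linarith
        _ ≤ (1 - u θ ^ 2) * v θ ^ 2 := mul_le_mul_of_nonneg_left h4 h5
    rw [II_one] at h1
    have h2 : 0 < 1 - ρ ^ 2 := by linarith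
    exact lt_of_lt_of_le (by positivity) h1
  have hdet : I0 * V ≤ 4 * (N11 * N22 - N12 ^ 2) := by
    have h1 : 4 * (N11 * N22 - N12 ^ 2) = (N11 + N22) ^ 2 - (N11 - N22) ^ 2 - (2 * N12) ^ 2 := by ring
    rw [h1, htr, hd1, hd2, hVeq]
    have h2 : s ^ 2 * (J1 ^ 2 + J2 ^ 2) ≤ 1 / 4 * (I0 * Sg) := by
      have h3 : s ^ 2 * (J1 ^ 2 + J2 ^ 2) ≤ s ^ 2 * (I0 * Sg / 2) :=
        mul_le_mul_of_nonneg_left hJ (sq_nonneg s)
      have h4 : 0 ≤ I0 * Sg := by positivity
      have h5 : s ^ 2 * (I0 * Sg) ≤ 1 / 2 * (I0 * Sg) :=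
        mul_le_mul_of_nonneg_right (by linarith) h4
      linarith
    have h6 : I0 ^ 2 - (2 * s * J1) ^ 2 - (2 * s * J2) ^ 2 =
      I0 ^ 2 - 4 * (s ^ 2 * (J1 ^ 2 + J2 ^ 2)) := by ring
    rw [h6, mul_sub]
    linarith [sq I0]
  -- the right-hand side
  have hG : 4 * (A1 * B2 - B1 * A2) ≤ I0 * V := by
    set w₁ := A1 + B2 with hw1
    set w₂ := B1 - A2 with hw2
    have h0 : 4 * (A1 * B2 - B1 * A2) ≤ w₁ ^ 2 + w₂ ^ 2 := by
      rw [hw1, hw2]
      have : (A1 + B2) ^ 2 + (B1 - A2) ^ 2 =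
        4 * (A1 * B2 - B1 * A2) + ((A1 - B2) ^ 2 + (B1 + A2) ^ 2) := by ring
      rw [this]
      linarith [sq_nonneg (A1 - B2), sq_nonneg (B1 + A2)]
    refine h0.trans ?_
    set f : ℝ → ℝ := fun θ => v θ ^ 2 * (w₁ * (p θ * a θ + q θ * b θ) + w₂ * (p θ * b θ - q θ * a θ))
      with hf
    have hfB : BM f := by
      rw [hf]
      (repeat' (first | assumption | apply BM.add | apply BM.sub | apply BM.mul | apply BM.pow | apply BM.neg | apply BM.const))
    have h1 : II f = w₁ ^ 2 + w₂ ^ 2 := by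
      have h2 : II f = w₁ * II (fun θ => v θ ^ 2 * (p θ * a θ + q θ * b θ)) +
          w₂ * II (fun θ => v θ ^ 2 * (p θ * b θ - q θ * a θ)) := by
        apply II_lin2
        · (repeat' (first | assumption | apply BM.add | apply BM.sub | apply BM.mul | apply BM.pow | apply BM.neg | apply BM.const))
        · (repeat' (first | assumption | apply BM.add | apply BM.sub | apply BM.mul | apply BM.pow | apply BM.neg | apply BM.const))
        · intro θ; rw [hf]; ring
      have h3 : II (fun θ => v θ ^ 2 * (p θ * a θ + q θ * b θ)) = 1 * A1 + 1 * B2 := by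
        apply II_lin2
        · (repeat' (first | assumption | apply BM.add | apply BM.sub | apply BM.mul | apply BM.pow | apply BM.neg | apply BM.const))
        · (repeat' (first | assumption | apply BM.add | apply BM.sub | apply BM.mul | apply BM.pow | apply BM.neg | apply BM.const))
        · intro θ; ring
      have h4 : II (fun θ => v θ ^ 2 * (p θ * b θ - q θ * a θ)) = 1 * B1 + (-1) * A2 := by
        apply II_lin2
        · (repeat' (first | assumption | apply BM.add | apply BM.sub | apply BM.mul | apply BM.pow | apply BM.neg | apply BM.const))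
        · (repeat' (first | assumption | apply BM.add | apply BM.sub | apply BM.mul | apply BM.pow | apply BM.neg | apply BM.const))
        · intro θ; ring
      rw [h2, h3, h4, hw1, hw2]
      ring
    have h2 := II_cs (f := fun θ => f θ * (a θ ^ 2 + b θ ^ 2)) (g := fun _ => 1) (w := v)
      (by (repeat' (first | assumption | apply BM.add | apply BM.sub | apply BM.mul | apply BM.pow | apply BM.neg | apply BM.const))) (by (repeat' (first | assumption | apply BM.add | apply BM.sub | apply BM.mul | apply BM.pow | apply BM.neg | apply BM.const))) hv (fun θ => (hvpos θ).le)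
    have h3 : II (fun θ => f θ * (a θ ^ 2 + b θ ^ 2) * 1 * v θ) = II f := II_congr fun θ => by
      linear_combination f θ * hv1 θ
    have h4 : II (fun θ => (1 : ℝ) ^ 2 * v θ) = I0 := II_congr fun θ => by ring
    rw [h3, h4] at h2
    have h5 : II (fun θ => (f θ * (a θ ^ 2 + b θ ^ 2)) ^ 2 * v θ) ≤ (w₁ ^ 2 + w₂ ^ 2) * V := by
      rw [← II_mul]
      apply II_mono (by (repeat' (first | assumption | apply BM.add | apply BM.sub | apply BM.mul | apply BM.pow | apply BM.neg | apply BM.const))) (by (repeat' (first | assumption | apply BM.add | apply BM.sub | apply BM.mul | apply BM.pow | apply BM.neg | apply BM.const)))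
      intro θ
      have h6 : (f θ * (a θ ^ 2 + b θ ^ 2)) ^ 2 * v θ = v θ ^ 3 *
          (w₁ * (p θ * a θ + q θ * b θ) + w₂ * (p θ * b θ - q θ * a θ)) ^ 2 := by
        have h7 := hv1 θ
        simp only [hf]
        linear_combination (v θ ^ 3 * (w₁ * (p θ * a θ + q θ * b θ) + w₂ * (p θ * b θ - q θ * a θ)) ^ 2
          * ((a θ ^ 2 + b θ ^ 2) * v θ + 1)) * h7
      have h7 : (w₁ * (p θ * a θ + q θ * b θ) + w₂ * (p θ * b θ - q θ * a θ)) ^ 2 ≤
          (w₁ ^ 2 + w₂ ^ 2) * ((p θ ^ 2 + q θ ^ 2) * (a θ ^ 2 + b θ ^ 2)) := by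
        have h8 : (w₁ ^ 2 + w₂ ^ 2) * ((p θ ^ 2 + q θ ^ 2) * (a θ ^ 2 + b θ ^ 2)) =
          (w₁ * (p θ * a θ + q θ * b θ) + w₂ * (p θ * b θ - q θ * a θ)) ^ 2 +
          (w₁ * (p θ * b θ - q θ * a θ) - w₂ * (p θ * a θ + q θ * b θ)) ^ 2 := by ring
        rw [h8]
        exact le_add_of_nonneg_right (sq_nonneg _)
      rw [h6]
      have h8 := hvpos θ
      have h9 : v θ ^ 3 * (w₁ * (p θ * a θ + q θ * b θ) + w₂ * (p θ * b θ - q θ * a θ)) ^ 2 ≤
          v θ ^ 3 * ((w₁ ^ 2 + w₂ ^ 2) * ((p θ ^ 2 + q θ ^ 2) * (a θ ^ 2 + b θ ^ 2))) :=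
        mul_le_mul_of_nonneg_left h7 (by positivity)
      refine h9.trans ?_
      have h10 : v θ ^ 3 * ((w₁ ^ 2 + w₂ ^ 2) * ((p θ ^ 2 + q θ ^ 2) * (a θ ^ 2 + b θ ^ 2))) =
          (w₁ ^ 2 + w₂ ^ 2) * ((p θ ^ 2 + q θ ^ 2) * v θ ^ 2) := by
        linear_combination ((w₁ ^ 2 + w₂ ^ 2) * (p θ ^ 2 + q θ ^ 2) * v θ ^ 2) * hv1 θ
      rw [h10]
      apply mul_le_mul_of_nonneg_left _ (by positivity)
      exact mul_le_mul_of_nonneg_right (hpq θ) (by positivity)
    rw [h1] at h2
    have h6 : 0 ≤ w₁ ^ 2 + w₂ ^ 2 := by positivity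
    rcases h6.lt_or_eq with h7 | h7
    · have h8 : (w₁ ^ 2 + w₂ ^ 2) * (w₁ ^ 2 + w₂ ^ 2) ≤ (w₁ ^ 2 + w₂ ^ 2) * (I0 * V) := by
        calc (w₁ ^ 2 + w₂ ^ 2) * (w₁ ^ 2 + w₂ ^ 2) = (w₁ ^ 2 + w₂ ^ 2) ^ 2 := by ring
          _ ≤ II (fun θ => (f θ * (a θ ^ 2 + b θ ^ 2)) ^ 2 * v θ) * I0 := h2
          _ ≤ ((w₁ ^ 2 + w₂ ^ 2) * V) * I0 := mul_le_mul_of_nonneg_right h5 hI0pos.le
          _ = (w₁ ^ 2 + w₂ ^ 2) * (I0 * V) := by ring
      exact le_of_mul_le_mul_left h8 h7
    · rw [← h7]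
      positivity
  -- the equations
  have q1 : x₁ * N11 + x₂ * N12 + A1 = 0 := by
    have h1 : II (fun θ => ((1 + 3 * (s * a θ) ^ 2 + 4 * u θ * (s * a θ)) * v θ ^ 3 *
      (x₁ * a θ + x₂ * b θ) + p θ * v θ ^ 2) * a θ) = x₁ * N11 + x₂ * N12 + 1 * A1 := by
      apply II_lin3
      · (repeat' (first | assumption | apply BM.add | apply BM.sub | apply BM.mul | apply BM.pow | apply BM.neg | apply BM.const))
      · (repeat' (first | assumption | apply BM.add | apply BM.sub | apply BM.mul | apply BM.pow | apply BM.neg | apply BM.const))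
      · (repeat' (first | assumption | apply BM.add | apply BM.sub | apply BM.mul | apply BM.pow | apply BM.neg | apply BM.const))
      · intro θ; ring
    rw [t1] at h1
    linarith
  have q2 : x₁ * N12 + x₂ * N22 + B1 = 0 := by
    have h1 : II (fun θ => ((1 + 3 * (s * a θ) ^ 2 + 4 * u θ * (s * a θ)) * v θ ^ 3 *
      (x₁ * a θ + x₂ * b θ) + p θ * v θ ^ 2) * b θ) = x₁ * N12 + x₂ * N22 + 1 * B1 := by
      apply II_lin3
      · (repeat' (first | assumption | apply BM.add | apply BM.sub | apply BM.mul | apply BM.pow | apply BM.neg | apply BM.const))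
      · (repeat' (first | assumption | apply BM.add | apply BM.sub | apply BM.mul | apply BM.pow | apply BM.neg | apply BM.const))
      · (repeat' (first | assumption | apply BM.add | apply BM.sub | apply BM.mul | apply BM.pow | apply BM.neg | apply BM.const))
      · intro θ; ring
    rw [t2] at h1
    linarith
  have q3 : y₁ * N11 + y₂ * N12 + A2 = 0 := by
    have h1 : II (fun θ => ((1 + 3 * (s * a θ) ^ 2 + 4 * u θ * (s * a θ)) * v θ ^ 3 *
      (y₁ * a θ + y₂ * b θ) + q θ * v θ ^ 2) * a θ) = y₁ * N11 + y₂ * N12 + 1 * A2 := by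
      apply II_lin3
      · (repeat' (first | assumption | apply BM.add | apply BM.sub | apply BM.mul | apply BM.pow | apply BM.neg | apply BM.const))
      · (repeat' (first | assumption | apply BM.add | apply BM.sub | apply BM.mul | apply BM.pow | apply BM.neg | apply BM.const))
      · (repeat' (first | assumption | apply BM.add | apply BM.sub | apply BM.mul | apply BM.pow | apply BM.neg | apply BM.const))
      · intro θ; ring
    rw [t3] at h1
    linarith
  have q4 : y₁ * N12 + y₂ * N22 + B2 = 0 := by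
    have h1 : II (fun θ => ((1 + 3 * (s * a θ) ^ 2 + 4 * u θ * (s * a θ)) * v θ ^ 3 *
      (y₁ * a θ + y₂ * b θ) + q θ * v θ ^ 2) * b θ) = y₁ * N12 + y₂ * N22 + 1 * B2 := by
      apply II_lin3
      · (repeat' (first | assumption | apply BM.add | apply BM.sub | apply BM.mul | apply BM.pow | apply BM.neg | apply BM.const))
      · (repeat' (first | assumption | apply BM.add | apply BM.sub | apply BM.mul | apply BM.pow | apply BM.neg | apply BM.const))
      · (repeat' (first | assumption | apply BM.add | apply BM.sub | apply BM.mul | apply BM.pow | apply BM.neg | apply BM.const))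
      · intro θ; ring
    rw [t4] at h1
    linarith
  have hfin : (N11 * N22 - N12 ^ 2) * (x₁ * y₂ - x₂ * y₁) = A1 * B2 - B1 * A2 := by
    have hA1' : A1 = -(x₁ * N11 + x₂ * N12) := by linarith
    have hB1' : B1 = -(x₁ * N12 + x₂ * N22) := by linarith
    have hA2' : A2 = -(y₁ * N11 + y₂ * N12) := by linarith
    have hB2' : B2 = -(y₁ * N12 + y₂ * N22) := by linarith
    rw [hA1', hB1', hA2', hB2']
    ring
  have hdetpos : 0 < N11 * N22 - N12 ^ 2 := by
    have : 0 < I0 * V := by positivity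
    linarith
  have hle : (N11 * N22 - N12 ^ 2) * (x₁ * y₂ - x₂ * y₁) ≤ (N11 * N22 - N12 ^ 2) * 1 := by
    rw [hfin]
    linarith
  exact le_of_mul_le_mul_left hle hdetpos

end Pool.Agent.Q183.CAP
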