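import Pool.Agent.Q183.CAP.A

/-!
# Integrals over a period
-/

set_option autoImplicit false
set_option linter.unreachableTactic false
set_option linter.unusedTactic false

open Real MeasureTheory Set Filter Topology

namespace Pool.Agent.Q183.CAP

theorem BM.of_cont {f : ℝ → ℝ} (hf : Continuous f) {C : ℝ} (hC : ∀ θ, |f θ| ≤ C) : BM f :=
  ⟨hf.measurable, C, hC⟩

theorem BM.cos' : BM fun θ => cos θ := BM.of_cont continuous_cos fun θ => abs_cos_le_one θ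

theorem BM.sin' : BM fun θ => sin θ := BM.of_cont continuous_sin fun θ => abs_sin_le_one θ

section Calc

variable {k φ : ℝ}

/-- the curve -/
noncomputable def Zc (k φ θ : ℝ) : ℂ :=
  ((k * cos (θ - φ) : ℝ) : ℂ) + ((sin (θ - φ) : ℝ) : ℂ) * Complex.I

/-- its conjugate -/
noncomputable def Wc (k φ θ : ℝ) : ℂ :=
  ((k * cos (θ - φ) : ℝ) : ℂ) - ((sin (θ - φ) : ℝ) : ℂ) * Complex.I

theorem ZW (θ : ℝ) : Zc k φ θ * Wc k φ θ =
    (((k * cos (θ - φ)) ^ 2 + sin (θ - φ) ^ 2 : ℝ) : ℂ) := by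
  unfold Zc Wc
  push_cast
  linear_combination (-(Complex.sin ((θ : ℂ) - φ)) ^ 2) * Complex.I_sq

theorem ZW_pos (hk : 0 < k) (θ : ℝ) : 0 < (k * cos (θ - φ)) ^ 2 + sin (θ - φ) ^ 2 := by
  by_contra h
  push Not at h
  have h1 := sq_nonneg (k * cos (θ - φ))
  have h2 := sq_nonneg (sin (θ - φ))
  have h3 : sin (θ - φ) ^ 2 = 0 := by linarith
  have h4 : (k * cos (θ - φ)) ^ 2 = 0 := by linarith
  have h5 := sin_sq_add_cos_sq (θ - φ)
  rw [h3, zero_add] at h5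
  rw [mul_pow, h5, mul_one] at h4
  have := pow_pos hk 2
  linarith

theorem W_ne (hk : 0 < k) (θ : ℝ) : Wc k φ θ ≠ 0 := by
  intro h
  have h1 := ZW (k := k) (φ := φ) θ
  rw [h, mul_zero] at h1
  have h2 := ZW_pos (φ := φ) hk θ
  exact h2.ne' (Complex.ofReal_eq_zero.1 h1.symm)

theorem hasDerivAt_Z (θ : ℝ) : HasDerivAt (Zc k φ)
    (((-(k * sin (θ - φ)) : ℝ) : ℂ) + ((cos (θ - φ) : ℝ) : ℂ) * Complex.I) θ := by
  have h1 : HasDerivAt (fun t : ℝ => k * cos (t - φ)) (-(k * sin (θ - φ))) θ :=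
    (((hasDerivAt_cos (θ - φ)).comp_sub_const θ φ).const_mul k).congr_deriv (by ring)
  have h2 : HasDerivAt (fun t : ℝ => sin (t - φ)) (cos (θ - φ)) θ :=
    (hasDerivAt_sin (θ - φ)).comp_sub_const θ φ
  exact h1.ofReal_comp.add (h2.ofReal_comp.mul_const Complex.I)

theorem hasDerivAt_W (θ : ℝ) : HasDerivAt (Wc k φ)
    (((-(k * sin (θ - φ)) : ℝ) : ℂ) - ((cos (θ - φ) : ℝ) : ℂ) * Complex.I) θ := by
  have h1 : HasDerivAt (fun t : ℝ => k * cos (t - φ)) (-(k * sin (θ - φ))) θ :=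
    (((hasDerivAt_cos (θ - φ)).comp_sub_const θ φ).const_mul k).congr_deriv (by ring)
  have h2 : HasDerivAt (fun t : ℝ => sin (t - φ)) (cos (θ - φ)) θ :=
    (hasDerivAt_sin (θ - φ)).comp_sub_const θ φ
  exact h1.ofReal_comp.sub (h2.ofReal_comp.mul_const Complex.I)

theorem hasDerivAt_quot (hk : 0 < k) (n : ℕ) (θ : ℝ) :
    HasDerivAt (fun t => (Zc k φ t / Wc k φ t) ^ (n + 1))
    ((2 * (n + 1) * k * Complex.I) * (Zc k φ θ ^ (2 * n + 2) /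
      ((((k * cos (θ - φ)) ^ 2 + sin (θ - φ) ^ 2 : ℝ) : ℂ)) ^ (n + 2))) θ := by
  have h1 := ((hasDerivAt_Z (k := k) (φ := φ) θ).div (hasDerivAt_W (k := k) (φ := φ) θ)
    (W_ne hk θ)).pow (n + 1)
  have hW := W_ne (φ := φ) hk θ
  have hZW := ZW (k := k) (φ := φ) θ
  have hne : (((k * cos (θ - φ)) ^ 2 + sin (θ - φ) ^ 2 : ℝ) : ℂ) ≠ 0 := by
    rw [Ne, Complex.ofReal_eq_zero]
    exact (ZW_pos hk θ).ne'
  have hZ : Zc k φ θ ≠ 0 := by
    intro h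
    rw [h, zero_mul] at hZW
    exact hne hZW.symm
  have h2 : ((((-(k * sin (θ - φ)) : ℝ) : ℂ) + ((cos (θ - φ) : ℝ) : ℂ) * Complex.I) * Wc k φ θ -
      Zc k φ θ * (((-(k * sin (θ - φ)) : ℝ) : ℂ) - ((cos (θ - φ) : ℝ) : ℂ) * Complex.I)) =
      2 * k * Complex.I := by
    unfold Zc Wc
    have h3 : (Complex.sin ((θ : ℂ) - φ)) ^ 2 + (Complex.cos ((θ : ℂ) - φ)) ^ 2 = 1 :=
      Complex.sin_sq_add_cos_sq _
    push_cast
    linear_combination (2 * k * Complex.I) * h3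
  refine h1.congr_deriv ?_
  rw [h2, ← hZW, Pi.div_apply]
  have h4 : (((n + 1 : ℕ) : ℂ)) = (n : ℂ) + 1 := by push_cast; ring
  rw [h4, Nat.add_sub_cancel, div_pow, mul_pow]
  field_simp
  ring

theorem quot_periodic (n : ℕ) : (Zc k φ (2 * π) / Wc k φ (2 * π)) ^ (n + 1) =
    (Zc k φ 0 / Wc k φ 0) ^ (n + 1) := by
  unfold Zc Wc
  rw [show 2 * π - φ = (0 - φ) + 2 * π by ring, cos_add_two_pi, sin_add_two_pi]

theorem continuous_E (hk : 0 < k) (n : ℕ) : Continuous fun θ => Zc k φ θ ^ (2 * n + 2) /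
      ((((k * cos (θ - φ)) ^ 2 + sin (θ - φ) ^ 2 : ℝ) : ℂ)) ^ (n + 2) := by
  have h1 : Continuous (Zc k φ) := by
    unfold Zc
    fun_prop
  refine (h1.pow _).div (by fun_prop) fun θ => ?_
  apply pow_ne_zero
  rw [Ne, Complex.ofReal_eq_zero]
  exact (ZW_pos hk θ).ne'

theorem integral_E (hk : 0 < k) (n : ℕ) : ∫ θ in (0 : ℝ)..(2 * π), Zc k φ θ ^ (2 * n + 2) /
      ((((k * cos (θ - φ)) ^ 2 + sin (θ - φ) ^ 2 : ℝ) : ℂ)) ^ (n + 2) = 0 := by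
  have hint := (continuous_E (φ := φ) hk n).intervalIntegrable (μ := volume) 0 (2 * π)
  have h1 := intervalIntegral.integral_eq_sub_of_hasDerivAt (a := 0) (b := 2 * π)
    (fun θ _ => hasDerivAt_quot (φ := φ) hk n θ) (hint.const_mul _)
  rw [quot_periodic, sub_self, intervalIntegral.integral_const_mul] at h1
  have h2 : (2 * ((n : ℂ) + 1) * k * Complex.I) ≠ 0 := by
    have h3 : ((n : ℂ) + 1) ≠ 0 := by exact_mod_cast Nat.succ_ne_zero n
    have h4 : (k : ℂ) ≠ 0 := by exact_mod_cast hk.ne'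
    have h5 := Complex.I_ne_zero
    exact mul_ne_zero (mul_ne_zero (mul_ne_zero two_ne_zero h3) h4) h5
  exact (mul_eq_zero.1 h1).resolve_left h2

theorem II_re_im {f : ℝ → ℂ} (hf : Continuous f) (h : ∫ θ in (0 : ℝ)..(2 * π), f θ = 0) :
    II (fun θ => (f θ).re) = 0 ∧ II (fun θ => (f θ).im) = 0 := by
  have hint := hf.intervalIntegrable (μ := volume) 0 (2 * π)
  have h1 := Complex.reCLM.intervalIntegral_comp_comm hint
  have h2 := Complex.imCLM.intervalIntegral_comp_comm hint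
  rw [h, map_zero] at h1 h2
  exact ⟨h1, h2⟩

theorem II_E (hk : 0 < k) (n : ℕ) {X Y : ℝ → ℝ}
    (hXY : ∀ θ, Zc k φ θ ^ (2 * n + 2) = ((X θ : ℝ) : ℂ) + ((Y θ : ℝ) : ℂ) * Complex.I) :
    II (fun θ => X θ / ((k * cos (θ - φ)) ^ 2 + sin (θ - φ) ^ 2) ^ (n + 2)) = 0 ∧
    II (fun θ => Y θ / ((k * cos (θ - φ)) ^ 2 + sin (θ - φ) ^ 2) ^ (n + 2)) = 0 := by
  have h1 := II_re_im (continuous_E (φ := φ) hk n) (integral_E hk n)
  have h2 : ∀ θ, Zc k φ θ ^ (2 * n + 2) /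
      ((((k * cos (θ - φ)) ^ 2 + sin (θ - φ) ^ 2 : ℝ) : ℂ)) ^ (n + 2) =
      ((X θ / ((k * cos (θ - φ)) ^ 2 + sin (θ - φ) ^ 2) ^ (n + 2) : ℝ) : ℂ) +
      ((Y θ / ((k * cos (θ - φ)) ^ 2 + sin (θ - φ) ^ 2) ^ (n + 2) : ℝ) : ℂ) * Complex.I := by
    intro θ
    rw [hXY θ, Complex.ofReal_div, Complex.ofReal_div, Complex.ofReal_pow]
    ring
  constructor
  · rw [← h1.1]
    apply II_congr
    intro θ
    rw [h2 θ, Complex.add_re, Complex.ofReal_re, Complex.mul_re, Complex.ofReal_re,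
      Complex.ofReal_im, Complex.I_re, mul_zero, zero_mul, sub_zero, add_zero]
  · rw [← h1.2]
    apply II_congr
    intro θ
    rw [h2 θ, Complex.add_im, Complex.ofReal_im, Complex.mul_im, Complex.ofReal_re,
      Complex.ofReal_im, Complex.I_im, mul_one, zero_mul, add_zero, zero_add]

theorem Z_two (θ : ℝ) : Zc k φ θ ^ (2 * 0 + 2) =
    (((k * cos (θ - φ)) ^ 2 - sin (θ - φ) ^ 2 : ℝ) : ℂ) +
    ((2 * (k * cos (θ - φ) * sin (θ - φ)) : ℝ) : ℂ) * Complex.I := by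
  unfold Zc
  push_cast
  linear_combination (Complex.sin ((θ : ℂ) - φ)) ^ 2 * Complex.I_sq

theorem Z_six (θ : ℝ) : Zc k φ θ ^ (2 * 2 + 2) =
    ((((k * cos (θ - φ)) ^ 3 - 3 * (k * cos (θ - φ)) * sin (θ - φ) ^ 2) ^ 2 -
      (3 * (k * cos (θ - φ)) ^ 2 * sin (θ - φ) - sin (θ - φ) ^ 3) ^ 2 : ℝ) : ℂ) +
    ((2 * (((k * cos (θ - φ)) ^ 3 - 3 * (k * cos (θ - φ)) * sin (θ - φ) ^ 2) *
      (3 * (k * cos (θ - φ)) ^ 2 * sin (θ - φ) - sin (θ - φ) ^ 3)) : ℝ) : ℂ) * Complex.I := by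
  have h1 : ∀ a b : ℂ, (a + b * Complex.I) ^ 3 =
      (a ^ 3 - 3 * a * b ^ 2) + (3 * a ^ 2 * b - b ^ 3) * Complex.I := by
    intro a b
    linear_combination (3 * a * b ^ 2 + b ^ 3 * Complex.I) * Complex.I_sq
  have h2 : Zc k φ θ ^ (2 * 2 + 2) = (Zc k φ θ ^ 3) ^ 2 := by ring
  rw [h2]
  unfold Zc
  rw [h1]
  push_cast
  linear_combination (3 * (k * Complex.cos ((θ : ℂ) - φ)) ^ 2 * Complex.sin ((θ : ℂ) - φ) -
    Complex.sin ((θ : ℂ) - φ) ^ 3) ^ 2 * Complex.I_sq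

end Calc

/-- the functional equation -/
noncomputable def ph (u y : ℝ) : ℝ := (u + y) / (1 - y ^ 2) ^ 2

/-- its derivative in `y` -/
noncomputable def kh (u y : ℝ) : ℝ := (1 + 3 * y ^ 2 + 4 * u * y) / (1 - y ^ 2) ^ 3

theorem key {x₁ x₂ k ρ : ℝ} (hk : 0 < k) (hx : x₁ ^ 2 + x₂ ^ 2 + k ^ 2 = 1)
    (hx2 : 2 * (x₁ ^ 2 + x₂ ^ 2) ≤ k ^ 2) (hρ : ρ ^ 2 < 1) {u p q : ℝ → ℝ} (hu : BM u) (hp : BM p)
    (hq : BM q) (hur : ∀ θ, u θ ^ 2 ≤ ρ ^ 2) (hpq : ∀ θ, p θ ^ 2 + q θ ^ 2 ≤ 1 - u θ ^ 2)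
    (s1 : II (fun θ => ph (u θ) (x₁ * cos θ + x₂ * sin θ) * cos θ) = 0)
    (s2 : II (fun θ => ph (u θ) (x₁ * cos θ + x₂ * sin θ) * sin θ) = 0)
    {X₁ X₂ Y₁ Y₂ : ℝ}
    (t1 : II (fun θ => (kh (u θ) (x₁ * cos θ + x₂ * sin θ) * (X₁ * cos θ + X₂ * sin θ) +
      p θ * (1 / (1 - (x₁ * cos θ + x₂ * sin θ) ^ 2) ^ 2)) * cos θ) = 0)
    (t2 : II (fun θ => (kh (u θ) (x₁ * cos θ + x₂ * sin θ) * (X₁ * cos θ + X₂ * sin θ) +
      p θ * (1 / (1 - (x₁ * cos θ + x₂ * sin θ) ^ 2) ^ 2)) * sin θ) = 0)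
    (t3 : II (fun θ => (kh (u θ) (x₁ * cos θ + x₂ * sin θ) * (Y₁ * cos θ + Y₂ * sin θ) +
      q θ * (1 / (1 - (x₁ * cos θ + x₂ * sin θ) ^ 2) ^ 2)) * cos θ) = 0)
    (t4 : II (fun θ => (kh (u θ) (x₁ * cos θ + x₂ * sin θ) * (Y₁ * cos θ + Y₂ * sin θ) +
      q θ * (1 / (1 - (x₁ * cos θ + x₂ * sin θ) ^ 2) ^ 2)) * sin θ) = 0) :
    X₁ * Y₂ - X₂ * Y₁ ≤ k := by
  obtain ⟨r, φ, h1, h2⟩ : ∃ r φ : ℝ, x₁ = r * cos φ ∧ x₂ = r * sin φ :=
    ⟨‖(⟨x₁, x₂⟩ : ℂ)‖, Complex.arg ⟨x₁, x₂⟩, (Complex.norm_mul_cos_arg ⟨x₁, x₂⟩).symm,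
      (Complex.norm_mul_sin_arg ⟨x₁, x₂⟩).symm⟩
  have hr : x₁ ^ 2 + x₂ ^ 2 = r ^ 2 := by
    rw [h1, h2]
    linear_combination r ^ 2 * sin_sq_add_cos_sq φ
  rw [hr] at hx hx2
  have hcs := sin_sq_add_cos_sq φ
  have hL : ∀ θ, x₁ * cos θ + x₂ * sin θ = r / k * (k * cos (θ - φ)) := by
    intro θ
    rw [h1, h2, cos_sub]
    field_simp
  have hD : ∀ θ, (k * cos (θ - φ)) ^ 2 + sin (θ - φ) ^ 2 = 1 - (r / k * (k * cos (θ - φ))) ^ 2 := by
    intro θ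
    have h3 : r / k * (k * cos (θ - φ)) = r * cos (θ - φ) := by field_simp
    rw [h3]
    linear_combination sin_sq_add_cos_sq (θ - φ) + cos (θ - φ) ^ 2 * hx
  set a : ℝ → ℝ := fun θ => k * cos (θ - φ) with ha
  set b : ℝ → ℝ := fun θ => sin (θ - φ) with hb
  set v : ℝ → ℝ := fun θ => 1 / ((k * cos (θ - φ)) ^ 2 + sin (θ - φ) ^ 2) with hv
  have hpos : ∀ θ, 0 < (k * cos (θ - φ)) ^ 2 + sin (θ - φ) ^ 2 := ZW_pos hk
  have hge : ∀ θ, k ^ 2 ≤ (k * cos (θ - φ)) ^ 2 + sin (θ - φ) ^ 2 := by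
    intro θ
    have h3 := sin_sq_add_cos_sq (θ - φ)
    have h4 : k ^ 2 ≤ 1 := by linarith [sq_nonneg r]
    have h5 : (k * cos (θ - φ)) ^ 2 + sin (θ - φ) ^ 2 = k ^ 2 + (1 - k ^ 2) * sin (θ - φ) ^ 2 := by
      linear_combination k ^ 2 * h3
    rw [h5]
    have := mul_nonneg (sub_nonneg.2 h4) (sq_nonneg (sin (θ - φ)))
    linarith
  have hcos : BM fun θ => cos (θ - φ) :=
    BM.of_cont (by fun_prop) fun θ => abs_cos_le_one _
  have haB : BM a := (BM.const k).mul hcos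
  have hbB : BM b := BM.of_cont (by fun_prop) fun θ => abs_sin_le_one _
  have hvB : BM v := by
    refine BM.of_cont (C := 1 / k ^ 2) ?_ fun θ => ?_
    · exact continuous_const.div (by fun_prop) fun θ => (hpos θ).ne'
    · rw [abs_of_pos (one_div_pos.2 (hpos θ))]
      exact one_div_le_one_div_of_le (by positivity) (hge θ)
  have hph : ∀ θ, ph (u θ) (x₁ * cos θ + x₂ * sin θ) = (u θ + r / k * a θ) * v θ ^ 2 := by
    intro θ
    unfold ph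
    rw [hL, ← hD]
    simp only [ha, hv]
    rw [div_pow, one_pow, div_eq_mul_one_div]
  have hkh : ∀ θ, kh (u θ) (x₁ * cos θ + x₂ * sin θ) =
      (1 + 3 * (r / k * a θ) ^ 2 + 4 * u θ * (r / k * a θ)) * v θ ^ 3 := by
    intro θ
    unfold kh
    rw [hL, ← hD]
    simp only [ha, hv]
    rw [div_pow, one_pow, div_eq_mul_one_div]
  have hvv : ∀ θ, 1 / (1 - (x₁ * cos θ + x₂ * sin θ) ^ 2) ^ 2 = v θ ^ 2 := by
    intro θ
    rw [hL, ← hD]
    simp only [hv]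
    rw [div_pow, one_pow]
  have hE2 := II_E (φ := φ) hk 0 (fun θ => Z_two θ)
  have hE6 := II_E (φ := φ) hk 2 (fun θ => Z_six θ)
  have hcB := BM.cos'
  have hsB := BM.sin'
  have rot : ∀ g : ℝ → ℝ, BM g → II (fun θ => g θ * cos θ) = 0 → II (fun θ => g θ * sin θ) = 0 →
      II (fun θ => g θ * a θ) = 0 ∧ II (fun θ => g θ * b θ) = 0 := by
    intro g hg hg1 hg2
    constructor
    · have h3 : II (fun θ => g θ * a θ) = (k * cos φ) * II (fun θ => g θ * cos θ) +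
          (k * sin φ) * II (fun θ => g θ * sin θ) := by
        apply II_lin2 (hg.mul hcB) (hg.mul hsB)
        intro θ
        simp only [ha]
        rw [cos_sub]
        ring
      rw [h3, hg1, hg2, mul_zero, mul_zero, add_zero]
    · have h3 : II (fun θ => g θ * b θ) = (-sin φ) * II (fun θ => g θ * cos θ) +
          (cos φ) * II (fun θ => g θ * sin θ) := by
        apply II_lin2 (hg.mul hcB) (hg.mul hsB)
        intro θ
        simp only [hb]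
        rw [sin_sub]
        ring
      rw [h3, hg1, hg2, mul_zero, mul_zero, add_zero]
  have hXY : ∀ X₁ X₂ : ℝ, ∃ e₁ e₂ : ℝ, e₁ = (X₁ * cos φ + X₂ * sin φ) / k ∧
      e₂ = X₂ * cos φ - X₁ * sin φ ∧ ∀ θ, X₁ * cos θ + X₂ * sin θ = e₁ * a θ + e₂ * b θ := by
    intro X₁ X₂
    refine ⟨_, _, rfl, rfl, fun θ => ?_⟩
    simp only [ha, hb]
    rw [cos_sub, sin_sub]
    have h3 : (X₁ * cos φ + X₂ * sin φ) / k * (k * (cos θ * cos φ + sin θ * sin φ)) =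
      (X₁ * cos φ + X₂ * sin φ) * (cos θ * cos φ + sin θ * sin φ) := by field_simp
    rw [h3]
    linear_combination (-(X₁ * cos θ + X₂ * sin θ)) * hcs
  have hkB : BM fun θ => (1 + 3 * (r / k * a θ) ^ 2 + 4 * u θ * (r / k * a θ)) * v θ ^ 3 := by
    (repeat' (first | assumption | apply BM.add | apply BM.sub | apply BM.mul | apply BM.pow | apply BM.neg | apply BM.const))
  have hpB : BM fun θ => (u θ + r / k * a θ) * v θ ^ 2 := by
    (repeat' (first | assumption | apply BM.add | apply BM.sub | apply BM.mul | apply BM.pow | apply BM.neg | apply BM.const))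
  simp only [hph] at s1 s2
  simp only [hkh, hvv] at t1 t2 t3 t4
  obtain ⟨e₁, e₂, he₁, he₂, he⟩ := hXY X₁ X₂
  obtain ⟨f₁, f₂, hf₁, hf₂, hf⟩ := hXY Y₁ Y₂
  simp only [he] at t1 t2
  simp only [hf] at t3 t4
  obtain ⟨s1', s2'⟩ := rot _ hpB s1 s2
  obtain ⟨t1', t2'⟩ := rot _ (by (repeat' (first | assumption | apply BM.add | apply BM.sub | apply BM.mul | apply BM.pow | apply BM.neg | apply BM.const))) t1 t2
  obtain ⟨t3', t4'⟩ := rot _ (by (repeat' (first | assumption | apply BM.add | apply BM.sub | apply BM.mul | apply BM.pow | apply BM.neg | apply BM.const))) t3 t4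
  have hfin := alg (a := a) (b := b) (u := u) (v := v) (p := p) (q := q) haB hbB hu hvB hp hq
    (s := r / k) (ρ := ρ) ?_ hρ ?_ hD hur hpq ?_ ?_ ?_ ?_ ?_ ?_ t1' t2' t3' t4'
  · have h3 : e₁ * f₂ - e₂ * f₁ = (X₁ * Y₂ - X₂ * Y₁) / k := by
      rw [he₁, he₂, hf₁, hf₂]
      field_simp
      linear_combination (X₁ * Y₂ - X₂ * Y₁) * hcs
    rw [h3, div_le_one hk] at hfin
    exact hfin
  · rw [div_pow, ← mul_div_assoc, div_le_one (by positivity)]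
    exact hx2
  · intro θ
    simp only [ha, hb, hv]
    exact mul_one_div_cancel (hpos θ).ne'
  · rw [← hE2.1]
    apply II_congr
    intro θ
    simp only [ha, hb, hv]
    rw [div_pow, one_pow, mul_one_div]
  · have h3 : II (fun θ => 2 * (k * cos (θ - φ) * sin (θ - φ)) /
        ((k * cos (θ - φ)) ^ 2 + sin (θ - φ) ^ 2) ^ (0 + 2)) =
        2 * II (fun θ => a θ * b θ * v θ ^ 2) := by
      rw [← II_mul]
      apply II_congr
      intro θ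
      simp only [ha, hb, hv]
      rw [div_pow, one_pow]
      ring
    rw [hE2.2] at h3
    linarith
  · rw [← hE6.1]
    apply II_congr
    intro θ
    simp only [ha, hb, hv]
    rw [div_pow, one_pow, mul_one_div]
  · have h3 : II (fun θ => 2 * (((k * cos (θ - φ)) ^ 3 - 3 * (k * cos (θ - φ)) * sin (θ - φ) ^ 2) *
        (3 * (k * cos (θ - φ)) ^ 2 * sin (θ - φ) - sin (θ - φ) ^ 3)) /
        ((k * cos (θ - φ)) ^ 2 + sin (θ - φ) ^ 2) ^ (2 + 2)) =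
        2 * II (fun θ => (a θ ^ 3 - 3 * a θ * b θ ^ 2) * (3 * a θ ^ 2 * b θ - b θ ^ 3) * v θ ^ 4) := by
      rw [← II_mul]
      apply II_congr
      intro θ
      simp only [ha, hb, hv]
      rw [div_pow, one_pow]
      ring
    rw [hE6.2] at h3
    linarith
  · rw [← s1']
    apply II_congr
    intro θ
    ring
  · rw [← s2']
    apply II_congr
    intro θ
    ring

end Pool.Agent.Q183.CAP
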