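import Pool.Agent.Q183.CAP.B

/-!
# The centre map
-/

set_option autoImplicit false
set_option linter.unreachableTactic false
set_option linter.unusedTactic false

open Real MeasureTheory Set Filter Topology

namespace Pool.Agent.Q183.CAP

theorem hasDerivAt_ph (u : ℝ) {y : ℝ} (hy : y ^ 2 < 1) : HasDerivAt (ph u) (kh u y) y := by
  have h1 : HasDerivAt (fun y : ℝ => u + y) 1 y := (hasDerivAt_id y).const_add u
  have h2 : HasDerivAt (fun y : ℝ => (1 - y ^ 2) ^ 2) (2 * (1 - y ^ 2) * (-(2 * y))) y := by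
    have h3 : HasDerivAt (fun y : ℝ => 1 - y ^ 2) (-(2 * y)) y := by
      have := (hasDerivAt_pow 2 y).const_sub 1
      refine this.congr_deriv ?_
      simp
    refine (h3.pow 2).congr_deriv ?_
    simp
  have hne : (1 - y ^ 2) ≠ 0 := by
    have : 0 < 1 - y ^ 2 := by linarith
    exact this.ne'
  refine (h1.div h2 (pow_ne_zero 2 hne)).congr_deriv ?_
  unfold kh
  field_simp
  ring

theorem kh_bounds {ρ u y : ℝ} (hρ : ρ ^ 2 ≤ 1 / 3) (hu : u ^ 2 ≤ ρ ^ 2) (hy : y ^ 2 ≤ ρ ^ 2) :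
    5 / 9 ≤ kh u y ∧ kh u y ≤ 12 := by
  have h1 : 5 / 9 ≤ 1 + 3 * y ^ 2 + 4 * u * y := by
    nlinarith [sq_nonneg (3 * y + 2 * u)]
  have h2 : 1 + 3 * y ^ 2 + 4 * u * y ≤ 10 / 3 := by
    nlinarith [sq_nonneg (u - y)]
  have h3 : 2 / 3 ≤ 1 - y ^ 2 := by linarith
  have h4 : (2 / 3 : ℝ) ^ 3 ≤ (1 - y ^ 2) ^ 3 := pow_le_pow_left₀ (by norm_num) h3 3
  have h5 : (1 - y ^ 2) ^ 3 ≤ 1 := pow_le_one₀ (by linarith) (by linarith [sq_nonneg y])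
  have h6 : 0 < (1 - y ^ 2) ^ 3 := lt_of_lt_of_le (by norm_num) h4
  unfold kh
  constructor
  · rw [le_div_iff₀ h6]
    linarith
  · rw [div_le_iff₀ h6]
    linarith

theorem ph_slope {ρ u : ℝ} (hρ0 : 0 ≤ ρ) (hρ : ρ ^ 2 ≤ 1 / 3) (hu : u ^ 2 ≤ ρ ^ 2) {y z : ℝ}
    (hy : -ρ ≤ y) (hyz : y ≤ z) (hz : z ≤ ρ) :
    5 / 9 * (z - y) ≤ ph u z - ph u y ∧ ph u z - ph u y ≤ 12 * (z - y) := by
  have hd : ∀ w ∈ Set.Icc (-ρ) ρ, HasDerivAt (ph u) (kh u w) w := by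
    intro w hw
    apply hasDerivAt_ph
    have : w ^ 2 ≤ ρ ^ 2 := sq_le_sq' hw.1 hw.2
    linarith
  have hc : ContinuousOn (ph u) (Set.Icc (-ρ) ρ) := fun w hw => (hd w hw).continuousAt.continuousWithinAt
  have hdi : DifferentiableOn ℝ (ph u) (interior (Set.Icc (-ρ) ρ)) := fun w hw =>
    (hd w (interior_subset hw)).differentiableAt.differentiableWithinAt
  have hb : ∀ w ∈ interior (Set.Icc (-ρ) ρ), 5 / 9 ≤ deriv (ph u) w ∧ deriv (ph u) w ≤ 12 := by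
    intro w hw
    have hw' := interior_subset hw
    rw [(hd w hw').deriv]
    exact kh_bounds hρ hu (sq_le_sq' hw'.1 hw'.2)
  exact ⟨(convex_Icc _ _).mul_sub_le_image_sub_of_le_deriv hc hdi (fun w hw => (hb w hw).1) y
    ⟨hy, hyz.trans hz⟩ z ⟨hy.trans hyz, hz⟩ hyz,
    (convex_Icc _ _).image_sub_le_mul_sub_of_deriv_le hc hdi (fun w hw => (hb w hw).2) y
    ⟨hy, hyz.trans hz⟩ z ⟨hy.trans hyz, hz⟩ hyz⟩

/-- truncation -/
noncomputable def cl (ρ y : ℝ) : ℝ := max (-ρ) (min ρ y)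

theorem cl_mem {ρ : ℝ} (hρ0 : 0 ≤ ρ) (y : ℝ) : -ρ ≤ cl ρ y ∧ cl ρ y ≤ ρ :=
  ⟨le_max_left _ _, max_le (by linarith) (min_le_left _ _)⟩

theorem cl_sq {ρ : ℝ} (hρ0 : 0 ≤ ρ) (y : ℝ) : cl ρ y ^ 2 ≤ ρ ^ 2 :=
  sq_le_sq' (cl_mem hρ0 y).1 (cl_mem hρ0 y).2

theorem cl_eq {ρ y : ℝ} (h1 : -ρ ≤ y) (h2 : y ≤ ρ) : cl ρ y = y := by
  unfold cl
  rw [min_eq_right h2, max_eq_right h1]

theorem cl_mono {ρ y z : ℝ} (h : y ≤ z) : cl ρ y ≤ cl ρ z :=
  max_le_max le_rfl (min_le_min le_rfl h)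

theorem cl_sub {ρ y z : ℝ} (h : y ≤ z) : cl ρ z - cl ρ y ≤ z - y := by
  unfold cl
  rcases le_total ρ y with h1 | h1 <;> rcases le_total ρ z with h2 | h2 <;>
    rcases le_total (-ρ) y with h3 | h3 <;> rcases le_total (-ρ) z with h4 | h4 <;>
    simp only [min_eq_left, min_eq_right, h1, h2] <;>
    simp only [max_def] <;> split_ifs <;> linarith

theorem cl_continuous (ρ : ℝ) : Continuous (cl ρ) := by
  unfold cl
  fun_prop

/-- the functional equation, extended to all `y` -/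
noncomputable def pt (ρ u y : ℝ) : ℝ := ph u (cl ρ y) + (y - cl ρ y)

theorem pt_slope {ρ u : ℝ} (hρ0 : 0 ≤ ρ) (hρ : ρ ^ 2 ≤ 1 / 3) (hu : u ^ 2 ≤ ρ ^ 2) {y z : ℝ}
    (hyz : y ≤ z) :
    5 / 9 * (z - y) ≤ pt ρ u z - pt ρ u y ∧ pt ρ u z - pt ρ u y ≤ 12 * (z - y) := by
  obtain ⟨h1, h2⟩ := ph_slope hρ0 hρ hu (cl_mem hρ0 y).1 (cl_mono hyz) (cl_mem hρ0 z).2
  have h3 := cl_mono (ρ := ρ) hyz
  have h4 := cl_sub (ρ := ρ) hyz
  unfold pt
  constructor <;> linarith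

theorem pt_two {ρ u : ℝ} (hρ0 : 0 ≤ ρ) (hρ : ρ ^ 2 ≤ 1 / 3) (hu : u ^ 2 ≤ ρ ^ 2) (y z : ℝ) :
    5 / 9 * (z - y) ^ 2 ≤ (pt ρ u z - pt ρ u y) * (z - y) ∧
    (pt ρ u z - pt ρ u y) ^ 2 ≤ 12 * ((pt ρ u z - pt ρ u y) * (z - y)) := by
  rcases le_total y z with h | h
  · obtain ⟨h1, h2⟩ := pt_slope hρ0 hρ hu h
    have h3 : 0 ≤ z - y := by linarith
    have h4 : 0 ≤ pt ρ u z - pt ρ u y := by linarith
    constructor
    · have := mul_le_mul_of_nonneg_right h1 h3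
      linarith [this, sq (z - y)]
    · have := mul_le_mul_of_nonneg_left h2 h4
      linarith [this, sq (pt ρ u z - pt ρ u y)]
  · obtain ⟨h1, h2⟩ := pt_slope hρ0 hρ hu h
    have h3 : 0 ≤ y - z := by linarith
    have h4 : 0 ≤ pt ρ u y - pt ρ u z := by linarith
    constructor
    · have := mul_le_mul_of_nonneg_right h1 h3
      linarith [this, show (pt ρ u z - pt ρ u y) * (z - y) =
        (pt ρ u y - pt ρ u z) * (y - z) by ring, show 5 / 9 * (z - y) ^ 2 =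
        5 / 9 * (y - z) * (y - z) by ring]
    · have := mul_le_mul_of_nonneg_left h2 h4
      linarith [this, show (pt ρ u z - pt ρ u y) * (z - y) =
        (pt ρ u y - pt ρ u z) * (y - z) by ring, show (pt ρ u z - pt ρ u y) ^ 2 =
        (pt ρ u y - pt ρ u z) * (pt ρ u y - pt ρ u z) by ring]

theorem pt_u {ρ u w : ℝ} (hρ0 : 0 ≤ ρ) (hρ : ρ ^ 2 ≤ 1 / 3) (y : ℝ) :
    |pt ρ u y - pt ρ w y| ≤ 3 * |u - w| := by
  have h1 := cl_sq hρ0 y
  have h2 : 2 / 3 ≤ 1 - cl ρ y ^ 2 := by linarith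
  have h3 : (2 / 3 : ℝ) ^ 2 ≤ (1 - cl ρ y ^ 2) ^ 2 := pow_le_pow_left₀ (by norm_num) h2 2
  have h4 : 0 < (1 - cl ρ y ^ 2) ^ 2 := lt_of_lt_of_le (by norm_num) h3
  have h5 : pt ρ u y - pt ρ w y = (u - w) / (1 - cl ρ y ^ 2) ^ 2 := by
    unfold pt ph
    ring
  rw [h5, abs_div, abs_of_pos h4, div_le_iff₀ h4]
  have h6 := abs_nonneg (u - w)
  nlinarith

/-- the linear form of a point -/
noncomputable def Lf (x : ℂ) (θ : ℝ) : ℝ := x.re * cos θ + x.im * sin θ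

theorem BM.Lf (x : ℂ) : BM (Lf x) := ((BM.const _).mul BM.cos').add ((BM.const _).mul BM.sin')

theorem BM.cl {ρ : ℝ} (hρ0 : 0 ≤ ρ) {f : ℝ → ℝ} (hf : Measurable f) : BM fun θ => cl ρ (f θ) :=
  ⟨(cl_continuous ρ).measurable.comp hf, ρ, fun θ => abs_le.2 (cl_mem hρ0 _)⟩

theorem BM.inv {ρ : ℝ} (hρ : ρ ^ 2 ≤ 1 / 3) {f : ℝ → ℝ} (hf : Measurable f)
    (h : ∀ θ, f θ ^ 2 ≤ ρ ^ 2) : BM fun θ => 1 / (1 - f θ ^ 2) := by
  refine ⟨measurable_const.div (measurable_const.sub (hf.pow_const 2)), 3 / 2, fun θ => ?_⟩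
  have h1 := h θ
  have h2 : 2 / 3 ≤ 1 - f θ ^ 2 := by linarith
  rw [abs_of_pos (one_div_pos.2 (by linarith))]
  rw [div_le_iff₀ (by linarith)]
  linarith

theorem BM.pt {ρ : ℝ} (hρ0 : 0 ≤ ρ) (hρ : ρ ^ 2 ≤ 1 / 3) {u : ℝ → ℝ} (hu : BM u) (x : ℂ) :
    BM fun θ => pt ρ (u θ) (CAP.Lf x θ) := by
  have h1 := BM.Lf x
  have h2 := BM.cl hρ0 h1.1
  have h3 := BM.inv hρ h2.1 fun θ => cl_sq hρ0 _
  have h4 : (fun θ => CAP.pt ρ (u θ) (CAP.Lf x θ)) = fun θ =>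
      (u θ + CAP.cl ρ (CAP.Lf x θ)) * (1 / (1 - CAP.cl ρ (CAP.Lf x θ) ^ 2)) ^ 2 +
      (CAP.Lf x θ - CAP.cl ρ (CAP.Lf x θ)) := by
    funext θ
    unfold CAP.pt ph
    rw [div_pow, one_pow, mul_one_div]
  rw [h4]
  exact ((hu.add h2).mul (h3.pow 2)).add (h1.sub h2)

theorem II_cos_sq : II (fun θ => cos θ ^ 2) = π := by
  unfold II
  rw [integral_cos_sq]
  simp

theorem II_sin_sq : II (fun θ => sin θ ^ 2) = π := by
  unfold II
  rw [integral_sin_sq]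
  simp

theorem II_sin_cos : II (fun θ => sin θ * cos θ) = 0 := by
  unfold II
  rw [integral_sin_mul_cos₁]
  simp

theorem II_L_sq (a b : ℝ) : II (fun θ => (a * cos θ + b * sin θ) ^ 2) = π * (a ^ 2 + b ^ 2) := by
  have h1 : II (fun θ => (a * cos θ + b * sin θ) ^ 2) = a ^ 2 * II (fun θ => cos θ ^ 2) +
      b ^ 2 * II (fun θ => sin θ ^ 2) + (2 * a * b) * II (fun θ => sin θ * cos θ) := by
    have hcB := BM.cos'
    have hsB := BM.sin'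
    apply II_lin3
    · (repeat' (first | assumption | apply BM.add | apply BM.sub | apply BM.mul | apply BM.pow | apply BM.neg | apply BM.const))
    · (repeat' (first | assumption | apply BM.add | apply BM.sub | apply BM.mul | apply BM.pow | apply BM.neg | apply BM.const))
    · (repeat' (first | assumption | apply BM.add | apply BM.sub | apply BM.mul | apply BM.pow | apply BM.neg | apply BM.const))
    · intro θ
      ring
  rw [h1, II_cos_sq, II_sin_sq, II_sin_cos]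
  ring

end Pool.Agent.Q183.CAP
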