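import Pool.Agent.Q183.CAP.C

/-!
# The centre map: existence, uniqueness, Lipschitz dependence
-/

set_option autoImplicit false
set_option linter.unreachableTactic false
set_option linter.unusedTactic false

open Real MeasureTheory Set Filter Topology

namespace Pool.Agent.Q183.CAP

/-- the map whose zero is the centre -/
noncomputable def T (ρ : ℝ) (u : ℝ → ℝ) (x : ℂ) : ℂ :=
  ⟨II (fun θ => pt ρ (u θ) (Lf x θ) * cos θ), II (fun θ => pt ρ (u θ) (Lf x θ) * sin θ)⟩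

theorem Lf_sub (x x' : ℂ) (θ : ℝ) : Lf x θ - Lf x' θ = (x - x').re * cos θ + (x - x').im * sin θ := by
  unfold Lf
  rw [Complex.sub_re, Complex.sub_im]
  ring

section

variable {ρ : ℝ} {u : ℝ → ℝ}

theorem II_sub {f g : ℝ → ℝ} (hf : BM f) (hg : BM g) : II (fun θ => f θ - g θ) = II f - II g :=
  intervalIntegral.integral_sub (hf.int _ _) (hg.int _ _)

theorem T_sub_re (hρ0 : 0 ≤ ρ) (hρ : ρ ^ 2 ≤ 1 / 3) (hu : BM u) (x x' : ℂ) :
    (T ρ u x - T ρ u x').re =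
      II (fun θ => (pt ρ (u θ) (Lf x θ) - pt ρ (u θ) (Lf x' θ)) * cos θ) := by
  have h1 := BM.pt hρ0 hρ hu x
  have h2 := BM.pt hρ0 hρ hu x'
  have h3 := BM.cos'
  have h4 : (fun θ => (pt ρ (u θ) (Lf x θ) - pt ρ (u θ) (Lf x' θ)) * cos θ) = fun θ =>
      pt ρ (u θ) (Lf x θ) * cos θ - pt ρ (u θ) (Lf x' θ) * cos θ := by
    funext θ
    ring
  rw [h4, II_sub (h1.mul h3) (h2.mul h3)]
  rfl

theorem T_sub_im (hρ0 : 0 ≤ ρ) (hρ : ρ ^ 2 ≤ 1 / 3) (hu : BM u) (x x' : ℂ) :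
    (T ρ u x - T ρ u x').im =
      II (fun θ => (pt ρ (u θ) (Lf x θ) - pt ρ (u θ) (Lf x' θ)) * sin θ) := by
  have h1 := BM.pt hρ0 hρ hu x
  have h2 := BM.pt hρ0 hρ hu x'
  have h3 := BM.sin'
  have h4 : (fun θ => (pt ρ (u θ) (Lf x θ) - pt ρ (u θ) (Lf x' θ)) * sin θ) = fun θ =>
      pt ρ (u θ) (Lf x θ) * sin θ - pt ρ (u θ) (Lf x' θ) * sin θ := by
    funext θ
    ring
  rw [h4, II_sub (h1.mul h3) (h2.mul h3)]
  rfl

theorem T_pair (hρ0 : 0 ≤ ρ) (hρ : ρ ^ 2 ≤ 1 / 3) (hu : BM u) (x x' : ℂ) (a b : ℝ) :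
    a * (T ρ u x - T ρ u x').re + b * (T ρ u x - T ρ u x').im =
      II (fun θ => (pt ρ (u θ) (Lf x θ) - pt ρ (u θ) (Lf x' θ)) * (a * cos θ + b * sin θ)) := by
  have h1 := BM.pt hρ0 hρ hu x
  have h2 := BM.pt hρ0 hρ hu x'
  have h3 := BM.cos'
  have h4 := BM.sin'
  rw [T_sub_re hρ0 hρ hu, T_sub_im hρ0 hρ hu]
  symm
  apply II_lin2 ((h1.sub h2).mul h3) ((h1.sub h2).mul h4)
  intro θ
  ring

theorem T_mono (hρ0 : 0 ≤ ρ) (hρ : ρ ^ 2 ≤ 1 / 3) (hu : BM u) (hur : ∀ θ, u θ ^ 2 ≤ ρ ^ 2)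
    (x x' : ℂ) :
    5 / 9 * π * ((x - x').re ^ 2 + (x - x').im ^ 2) ≤
      (x - x').re * (T ρ u x - T ρ u x').re + (x - x').im * (T ρ u x - T ρ u x').im := by
  have h1 := BM.pt hρ0 hρ hu x
  have h2 := BM.pt hρ0 hρ hu x'
  have h3 := BM.cos'
  have h4 := BM.sin'
  have h5 : BM fun θ => (x - x').re * cos θ + (x - x').im * sin θ :=
    ((BM.const _).mul h3).add ((BM.const _).mul h4)
  rw [T_pair hρ0 hρ hu]
  have h6 := II_L_sq (x - x').re (x - x').im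
  have h7 : 5 / 9 * π * ((x - x').re ^ 2 + (x - x').im ^ 2) =
      II (fun θ => 5 / 9 * ((x - x').re * cos θ + (x - x').im * sin θ) ^ 2) := by
    rw [II_mul, h6]
    ring
  rw [h7]
  apply II_mono ((BM.const _).mul (h5.pow 2)) ((h1.sub h2).mul h5)
  intro θ
  have h8 := (pt_two hρ0 hρ (hur θ) (Lf x' θ) (Lf x θ)).1
  rw [Lf_sub] at h8
  exact h8

theorem T_coco (hρ0 : 0 ≤ ρ) (hρ : ρ ^ 2 ≤ 1 / 3) (hu : BM u) (hur : ∀ θ, u θ ^ 2 ≤ ρ ^ 2)
    (x x' : ℂ) :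
    (T ρ u x - T ρ u x').re ^ 2 + (T ρ u x - T ρ u x').im ^ 2 ≤ 12 * π *
      ((x - x').re * (T ρ u x - T ρ u x').re + (x - x').im * (T ρ u x - T ρ u x').im) := by
  have h1 := BM.pt hρ0 hρ hu x
  have h2 := BM.pt hρ0 hρ hu x'
  have h3 := BM.cos'
  have h4 := BM.sin'
  have h5 : BM fun θ => (x - x').re * cos θ + (x - x').im * sin θ :=
    ((BM.const _).mul h3).add ((BM.const _).mul h4)
  set W₁ := (T ρ u x - T ρ u x').re with hW₁
  set W₂ := (T ρ u x - T ρ u x').im with hW₂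
  set A := (x - x').re * W₁ + (x - x').im * W₂ with hA
  have h6 := T_pair hρ0 hρ hu x x' (x - x').re (x - x').im
  have h7 := T_pair hρ0 hρ hu x x' W₁ W₂
  rw [← hW₁, ← hW₂] at h6 h7
  rw [← hA] at h6
  have h8 := II_cs (f := fun θ => pt ρ (u θ) (Lf x θ) - pt ρ (u θ) (Lf x' θ))
    (g := fun θ => W₁ * cos θ + W₂ * sin θ) (w := fun _ => 1) (h1.sub h2)
    (((BM.const _).mul h3).add ((BM.const _).mul h4)) (BM.const 1) (fun _ => zero_le_one)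
  simp only [mul_one] at h8
  rw [← h7, II_L_sq] at h8
  have h9 : II (fun θ => (pt ρ (u θ) (Lf x θ) - pt ρ (u θ) (Lf x' θ)) ^ 2) ≤ 12 * A := by
    rw [h6, ← II_mul]
    apply II_mono ((h1.sub h2).pow 2) ((BM.const _).mul ((h1.sub h2).mul h5))
    intro θ
    have h10 := (pt_two hρ0 hρ (hur θ) (Lf x' θ) (Lf x θ)).2
    rw [Lf_sub] at h10
    exact h10
  have h10 : (W₁ * W₁ + W₂ * W₂) = W₁ ^ 2 + W₂ ^ 2 := by ring
  rw [h10] at h8
  have h11 : 0 ≤ W₁ ^ 2 + W₂ ^ 2 := by positivity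
  have h12 : 0 ≤ 12 * A := le_trans (II_nonneg fun θ => sq_nonneg _) h9
  rcases h11.lt_or_eq with h13 | h13
  · have h14 : (W₁ ^ 2 + W₂ ^ 2) * (W₁ ^ 2 + W₂ ^ 2) ≤ (W₁ ^ 2 + W₂ ^ 2) * (12 * π * A) := by
      calc (W₁ ^ 2 + W₂ ^ 2) * (W₁ ^ 2 + W₂ ^ 2) = (W₁ ^ 2 + W₂ ^ 2) ^ 2 := by ring
        _ ≤ _ := h8
        _ ≤ (12 * A) * (π * (W₁ ^ 2 + W₂ ^ 2)) := mul_le_mul_of_nonneg_right h9 (by positivity)
        _ = (W₁ ^ 2 + W₂ ^ 2) * (12 * π * A) := by ring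
    exact le_of_mul_le_mul_left h14 h13
  · rw [← h13]
    have : 12 * π * A = π * (12 * A) := by ring
    rw [this]
    positivity

theorem normsq (z : ℂ) : ‖z‖ ^ 2 = z.re ^ 2 + z.im ^ 2 := by
  rw [Complex.sq_norm, Complex.normSq_apply]
  ring

theorem exists_zero (hρ0 : 0 ≤ ρ) (hρ : ρ ^ 2 ≤ 1 / 3) (hu : BM u) (hur : ∀ θ, u θ ^ 2 ≤ ρ ^ 2) :
    ∃ x : ℂ, T ρ u x = 0 := by
  set F : ℂ → ℂ := fun x => x - ((1 / (12 * π) : ℝ) : ℂ) * T ρ u x with hF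
  have hc : ContractingWith (49 / 50 : NNReal) F := by
    refine ⟨by norm_num, LipschitzWith.of_dist_le_mul fun x x' => ?_⟩
    rw [dist_eq_norm, dist_eq_norm]
    have h1 := T_mono hρ0 hρ hu hur x x'
    have h2 := T_coco hρ0 hρ hu hur x x'
    have h3 : F x - F x' = (x - x') - ((1 / (12 * π) : ℝ) : ℂ) * (T ρ u x - T ρ u x') := by
      simp only [hF]
      ring
    set W := T ρ u x - T ρ u x' with hW
    set d := x - x' with hd
    have h4 : ‖F x - F x'‖ ^ 2 = (d.re ^ 2 + d.im ^ 2) - 2 * (1 / (12 * π)) *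
        (d.re * W.re + d.im * W.im) + (1 / (12 * π)) ^ 2 * (W.re ^ 2 + W.im ^ 2) := by
      rw [h3, normsq, Complex.sub_re, Complex.sub_im, Complex.re_ofReal_mul,
        Complex.im_ofReal_mul]
      ring
    have h5 : (1 / (12 * π)) ^ 2 * (W.re ^ 2 + W.im ^ 2) ≤
        (1 / (12 * π)) * (d.re * W.re + d.im * W.im) := by
      calc (1 / (12 * π)) ^ 2 * (W.re ^ 2 + W.im ^ 2) ≤
          (1 / (12 * π)) ^ 2 * (12 * π * (d.re * W.re + d.im * W.im)) :=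
            mul_le_mul_of_nonneg_left h2 (by positivity)
        _ = _ := by field_simp
    have h6 : (1 / (12 * π)) * (5 / 9 * π * (d.re ^ 2 + d.im ^ 2)) ≤
        (1 / (12 * π)) * (d.re * W.re + d.im * W.im) :=
      mul_le_mul_of_nonneg_left h1 (by positivity)
    have h7 : (1 / (12 * π)) * (5 / 9 * π * (d.re ^ 2 + d.im ^ 2)) =
        5 / 108 * (d.re ^ 2 + d.im ^ 2) := by
      field_simp
      ring
    have h8 : ‖F x - F x'‖ ^ 2 ≤ (49 / 50 * ‖d‖) ^ 2 := by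
      rw [h4, mul_pow, normsq]
      have h9 : 0 ≤ d.re ^ 2 + d.im ^ 2 := by positivity
      linarith
    have h9 := abs_le_of_sq_le_sq' h8 (by positivity)
    refine h9.2.trans (le_of_eq ?_)
    push_cast
    rfl
  obtain ⟨z, hz⟩ : ∃ z, Function.IsFixedPt F z := ⟨_, hc.fixedPoint_isFixedPt⟩
  refine ⟨z, ?_⟩
  have h1 : z - ((1 / (12 * π) : ℝ) : ℂ) * T ρ u z = z := hz
  have h2 : ((1 / (12 * π) : ℝ) : ℂ) * T ρ u z = 0 := by
    linear_combination -h1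
  have h3 : ((1 / (12 * π) : ℝ) : ℂ) ≠ 0 := by
    rw [Ne, Complex.ofReal_eq_zero]
    positivity
  exact (mul_eq_zero.1 h2).resolve_left h3

/-- The zero depends on the functions in a Lipschitz way. -/
theorem zero_lip (hρ0 : 0 ≤ ρ) (hρ : ρ ^ 2 ≤ 1 / 3) (hu : BM u) (hur : ∀ θ, u θ ^ 2 ≤ ρ ^ 2)
    {w : ℝ → ℝ} (hw : BM w) {x x' : ℂ} (hx : T ρ u x = 0) (hx' : T ρ w x' = 0) {δ : ℝ}
    (hδ : ∀ θ, |u θ - w θ| ≤ δ) : ‖x - x'‖ ≤ 11 * δ := by
  have hδ0 : 0 ≤ δ := (abs_nonneg _).trans (hδ 0)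
  have h1 := T_mono hρ0 hρ hu hur x x'
  have h2 : T ρ u x - T ρ u x' = T ρ w x' - T ρ u x' := by rw [hx, hx']
  have p1 := BM.pt hρ0 hρ hu x'
  have p2 := BM.pt hρ0 hρ hw x'
  have h3 := BM.cos'
  have h4 := BM.sin'
  have h5 : BM fun θ => (x - x').re * cos θ + (x - x').im * sin θ :=
    ((BM.const _).mul h3).add ((BM.const _).mul h4)
  have hL : ∀ θ, |(x - x').re * cos θ + (x - x').im * sin θ| ≤ ‖x - x'‖ := by
    intro θ
    apply abs_le_of_sq_le_sq _ (norm_nonneg _)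
    rw [normsq]
    nlinarith [sin_sq_add_cos_sq θ, sq_nonneg ((x - x').re * sin θ - (x - x').im * cos θ)]
  have h6 : (x - x').re * (T ρ u x - T ρ u x').re + (x - x').im * (T ρ u x - T ρ u x').im =
      II (fun θ => (pt ρ (w θ) (Lf x' θ) - pt ρ (u θ) (Lf x' θ)) *
        ((x - x').re * cos θ + (x - x').im * sin θ)) := by
    rw [h2, Complex.sub_re (T ρ w x'), Complex.sub_im (T ρ w x')]
    have h7 : II (fun θ => (pt ρ (w θ) (Lf x' θ) - pt ρ (u θ) (Lf x' θ)) *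
        ((x - x').re * cos θ + (x - x').im * sin θ)) =
        (x - x').re * II (fun θ => pt ρ (w θ) (Lf x' θ) * cos θ - pt ρ (u θ) (Lf x' θ) * cos θ) +
        (x - x').im * II (fun θ => pt ρ (w θ) (Lf x' θ) * sin θ - pt ρ (u θ) (Lf x' θ) * sin θ) := by
      apply II_lin2 ((p2.mul h3).sub (p1.mul h3)) ((p2.mul h4).sub (p1.mul h4))
      intro θ
      ring
    rw [h7, II_sub (p2.mul h3) (p1.mul h3), II_sub (p2.mul h4) (p1.mul h4)]
    rfl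
  have h7 : II (fun θ => (pt ρ (w θ) (Lf x' θ) - pt ρ (u θ) (Lf x' θ)) *
        ((x - x').re * cos θ + (x - x').im * sin θ)) ≤ II (fun _ => 3 * δ * ‖x - x'‖) := by
    apply II_mono ((p2.sub p1).mul h5) (BM.const _)
    intro θ
    refine (le_abs_self _).trans ?_
    rw [abs_mul]
    refine mul_le_mul ?_ (hL θ) (abs_nonneg _) (by positivity)
    refine (pt_u hρ0 hρ _).trans ?_
    rw [abs_sub_comm]
    linarith [hδ θ]
  rw [II_one] at h7
  rw [h6, ← normsq] at h1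
  have h8 : 5 / 9 * π * ‖x - x'‖ ^ 2 ≤ 2 * π * (3 * δ * ‖x - x'‖) := h1.trans h7
  rcases (norm_nonneg (x - x')).lt_or_eq with h9 | h9
  · have h10 : (5 / 9 * π * ‖x - x'‖) * ‖x - x'‖ ≤ (6 * π * δ) * ‖x - x'‖ := by
      calc _ = 5 / 9 * π * ‖x - x'‖ ^ 2 := by ring
        _ ≤ _ := h8
        _ = _ := by ring
    have h11 := le_of_mul_le_mul_right h10 h9
    have h12 : π * (5 / 9 * ‖x - x'‖) ≤ π * (6 * δ) := by linarith
    have h13 := le_of_mul_le_mul_left h12 pi_pos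
    linarith
  · rw [← h9]
    positivity

/-- The zero at the boundary. -/
theorem T_bdry (hρ0 : 0 ≤ ρ) (s : ℝ) (h : ∀ θ, u θ = -(ρ * cos (s - θ))) :
    T ρ u ⟨ρ * cos s, ρ * sin s⟩ = 0 := by
  have h1 : ∀ θ, pt ρ (u θ) (Lf ⟨ρ * cos s, ρ * sin s⟩ θ) = 0 := by
    intro θ
    have h2 : Lf ⟨ρ * cos s, ρ * sin s⟩ θ = ρ * cos (s - θ) := by
      unfold Lf
      rw [cos_sub]
      ring
    have h3 := abs_cos_le_one (s - θ)
    have h4 := abs_le.1 h3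
    rw [h2, h θ]
    unfold pt
    rw [cl_eq (by nlinarith) (by nlinarith)]
    unfold ph
    rw [neg_add_cancel, zero_div, sub_self, add_zero]
  apply Complex.ext
  · change II _ = 0
    rw [II_congr (g := fun _ => 0) fun θ => by rw [h1 θ, zero_mul], II_one, mul_zero]
  · change II _ = 0
    rw [II_congr (g := fun _ => 0) fun θ => by rw [h1 θ, zero_mul], II_one, mul_zero]

end

end Pool.Agent.Q183.CAP
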