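import Pool.Agent.Q183.CAP.D
import Pool.Agent.W664.Fill.Cal

/-!
# The family of functions
-/

set_option autoImplicit false

open Real MeasureTheory Set Filter Topology

namespace Pool.Agent.Q183.CAP

/-- The comparison on the boundary. -/
theorem arcsin_sub_le {ρ k : ℝ} (hρ0 : 0 ≤ ρ) (hk : k ^ 2 + ρ ^ 2 = 1) (x y : ℝ) :
    arcsin (ρ * cos x) - arcsin (ρ * cos y) ≤ arccos (k ^ 2 + ρ ^ 2 * cos (x - y)) := by
  rcases le_total (arcsin (ρ * cos x) - arcsin (ρ * cos y)) 0 with h | h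
  · exact h.trans (arccos_nonneg _)
  · have h1 : arcsin (ρ * cos x) - arcsin (ρ * cos y) ≤ π := by
      have h2 := arcsin_le_pi_div_two (ρ * cos x)
      have h3 := neg_pi_div_two_le_arcsin (ρ * cos y)
      linarith
    rw [← arccos_cos h h1]
    apply arccos_le_arccos
    have hρ1 : ρ ≤ 1 := by nlinarith [sq_nonneg k]
    have hx := abs_le.1 (abs_cos_le_one x)
    have hy := abs_le.1 (abs_cos_le_one y)
    rw [cos_sub x y, cos_sub (arcsin _) (arcsin _), cos_arcsin, cos_arcsin,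
      sin_arcsin (by nlinarith) (by nlinarith),
      sin_arcsin (by nlinarith) (by nlinarith), ← sqrt_mul' _ (by
        have : (ρ * cos y) ^ 2 ≤ 1 := by
          rw [mul_pow]
          nlinarith [sq_nonneg k, sin_sq_add_cos_sq y, sq_nonneg (sin y), sq_nonneg (cos y)]
        linarith)]
    have h2 : k ^ 2 + ρ ^ 2 * (sin x * sin y) ≤
        √((1 - (ρ * cos x) ^ 2) * (1 - (ρ * cos y) ^ 2)) := by
      apply le_sqrt_of_sq_le
      have e1 : 1 - (ρ * cos x) ^ 2 = k ^ 2 + ρ ^ 2 * sin x ^ 2 := by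
        linear_combination (-hk) + (ρ ^ 2) * (-(sin_sq_add_cos_sq x))
      have e2 : 1 - (ρ * cos y) ^ 2 = k ^ 2 + ρ ^ 2 * sin y ^ 2 := by
        linear_combination (-hk) + (ρ ^ 2) * (-(sin_sq_add_cos_sq y))
      rw [e1, e2]
      have e3 : (k ^ 2 + ρ ^ 2 * sin x ^ 2) * (k ^ 2 + ρ ^ 2 * sin y ^ 2) =
        (k ^ 2 + ρ ^ 2 * (sin x * sin y)) ^ 2 + k ^ 2 * ρ ^ 2 * (sin x - sin y) ^ 2 := by ring
      rw [e3]
      have := mul_nonneg (mul_nonneg (sq_nonneg k) (sq_nonneg ρ)) (sq_nonneg (sin x - sin y))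
      linarith
    linarith

theorem arccos_le_abs {ρ k : ℝ} (hk : k ^ 2 + ρ ^ 2 = 1) (x : ℝ) :
    arccos (k ^ 2 + ρ ^ 2 * cos x) ≤ |x| := by
  rcases le_total |x| π with h | h
  · rw [← arccos_cos (abs_nonneg x) h, cos_abs]
    apply arccos_le_arccos
    have h1 := cos_le_one x
    nlinarith [sq_nonneg k, sq_nonneg ρ]
  · exact (arccos_le_pi _).trans h

theorem arcsin_lip {ρ k : ℝ} (hρ0 : 0 ≤ ρ) (hk : k ^ 2 + ρ ^ 2 = 1) (x y : ℝ) :
    |arcsin (ρ * cos x) - arcsin (ρ * cos y)| ≤ |x - y| := by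
  rw [abs_le]
  constructor
  · have h1 := (arcsin_sub_le hρ0 hk y x).trans (arccos_le_abs hk (y - x))
    rw [abs_sub_comm] at h1
    linarith
  · exact (arcsin_sub_le hρ0 hk x y).trans (arccos_le_abs hk (x - y))

section

variable {M : Type} [MetricSpace M]

/-- the extension of the boundary values -/
noncomputable def AA (ρ : ℝ) (β : ℝ → M) (θ : ℝ) (q : M) : ℝ :=
  ⨅ t : ℝ, (-arcsin (ρ * cos (t - θ)) + dist (β t) q)

theorem AA_bdd (ρ : ℝ) (β : ℝ → M) (θ : ℝ) (q : M) :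
    BddBelow (Set.range fun t : ℝ => (-arcsin (ρ * cos (t - θ)) + dist (β t) q)) := by
  refine ⟨-(π / 2), ?_⟩
  rintro _ ⟨t, rfl⟩
  have h1 := arcsin_le_pi_div_two (ρ * cos (t - θ))
  have h2 : 0 ≤ dist (β t) q := dist_nonneg
  simp only
  linarith

theorem AA_lip (ρ : ℝ) (β : ℝ → M) (θ : ℝ) (x y : M) :
    |AA ρ β θ x - AA ρ β θ y| ≤ dist x y := by
  have key : ∀ x y : M, AA ρ β θ x ≤ AA ρ β θ y + dist x y := by
    intro x y
    unfold AA
    rw [← sub_le_iff_le_add]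
    apply le_ciInf
    intro t
    rw [sub_le_iff_le_add]
    refine (ciInf_le (AA_bdd ρ β θ x) t).trans ?_
    have := dist_triangle (β t) y x
    rw [dist_comm y x] at this
    linarith
  rw [abs_le]
  have h1 := key x y
  have h2 := key y x
  rw [dist_comm] at h2
  constructor <;> linarith

theorem AA_theta {ρ k : ℝ} (hρ0 : 0 ≤ ρ) (hk : k ^ 2 + ρ ^ 2 = 1) (β : ℝ → M) (θ θ' : ℝ) (q : M) :
    |AA ρ β θ q - AA ρ β θ' q| ≤ |θ - θ'| := by
  have key : ∀ θ θ' : ℝ, AA ρ β θ q ≤ AA ρ β θ' q + |θ - θ'| := by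
    intro θ θ'
    unfold AA
    rw [← sub_le_iff_le_add]
    apply le_ciInf
    intro t
    rw [sub_le_iff_le_add]
    refine (ciInf_le (AA_bdd ρ β θ q) t).trans ?_
    have h1 := arcsin_lip hρ0 hk (t - θ') (t - θ)
    have h2 := (abs_le.1 h1).2
    rw [show t - θ' - (t - θ) = θ - θ' by ring] at h2
    linarith
  rw [abs_le]
  have h1 := key θ θ'
  have h2 := key θ' θ
  rw [abs_sub_comm] at h2
  constructor <;> linarith

theorem AA_bdry {ρ k : ℝ} (hρ0 : 0 ≤ ρ) (hk : k ^ 2 + ρ ^ 2 = 1) {β : ℝ → M}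
    (hβ : ∀ s t, arccos (k ^ 2 + ρ ^ 2 * cos (s - t)) ≤ dist (β s) (β t)) (θ s : ℝ) :
    AA ρ β θ (β s) = -arcsin (ρ * cos (s - θ)) := by
  unfold AA
  apply le_antisymm
  · refine (ciInf_le (AA_bdd ρ β θ (β s)) s).trans ?_
    simp
  · apply le_ciInf
    intro t
    have h1 := arcsin_sub_le hρ0 hk (t - θ) (s - θ)
    rw [show t - θ - (s - θ) = t - s by ring] at h1
    have h2 := hβ t s
    linarith

theorem cl_lip {r : ℝ} (x y : ℝ) : |cl r x - cl r y| ≤ |x - y| := by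
  rcases le_total x y with h | h
  · have h1 := cl_mono (ρ := r) h
    have h2 := cl_sub (ρ := r) h
    rw [abs_sub_comm, abs_sub_comm x y, abs_of_nonneg (by linarith), abs_of_nonneg (by linarith)]
    exact h2
  · have h1 := cl_mono (ρ := r) h
    have h2 := cl_sub (ρ := r) h
    rw [abs_of_nonneg (by linarith), abs_of_nonneg (by linarith)]
    exact h2

/-- the truncated extension -/
noncomputable def aa (ρ : ℝ) (β : ℝ → M) (θ : ℝ) (q : M) : ℝ := cl (arcsin ρ) (AA ρ β θ q)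

/-- its sine -/
noncomputable def UU (ρ : ℝ) (β : ℝ → M) (θ : ℝ) (q : M) : ℝ := sin (aa ρ β θ q)

theorem aa_lip (ρ : ℝ) (β : ℝ → M) (θ : ℝ) (x y : M) : |aa ρ β θ x - aa ρ β θ y| ≤ dist x y :=
  (cl_lip _ _).trans (AA_lip ρ β θ x y)

theorem aa_theta {ρ k : ℝ} (hρ0 : 0 ≤ ρ) (hk : k ^ 2 + ρ ^ 2 = 1) (β : ℝ → M) (θ θ' : ℝ) (q : M) :
    |aa ρ β θ q - aa ρ β θ' q| ≤ |θ - θ'| :=
  (cl_lip _ _).trans (AA_theta hρ0 hk β θ θ' q)

theorem sin_lip (x y : ℝ) : |sin x - sin y| ≤ |x - y| := by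
  have h := Real.abs_sin_sub_sin_le x y
  exact h

theorem aa_mem {ρ : ℝ} (hρ0 : 0 ≤ ρ) (β : ℝ → M) (θ : ℝ) (q : M) :
    -arcsin ρ ≤ aa ρ β θ q ∧ aa ρ β θ q ≤ arcsin ρ :=
  cl_mem (arcsin_nonneg.2 hρ0) _

theorem UU_mem {ρ : ℝ} (hρ0 : 0 ≤ ρ) (hρ1 : ρ ≤ 1) (β : ℝ → M) (θ : ℝ) (q : M) :
    -ρ ≤ UU ρ β θ q ∧ UU ρ β θ q ≤ ρ := by
  obtain ⟨h1, h2⟩ := aa_mem hρ0 β θ q
  have h3 := neg_pi_div_two_le_arcsin ρ
  have h4 := arcsin_le_pi_div_two ρ
  have h5 : sin (arcsin ρ) = ρ := sin_arcsin (by linarith) hρ1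
  constructor
  · rw [← h5, ← sin_neg]
    unfold UU
    rw [h5]
    exact sin_le_sin_of_le_of_le_pi_div_two (by linarith) (by linarith) h1
  · nth_rw 2 [← h5]
    exact sin_le_sin_of_le_of_le_pi_div_two (by linarith) (by linarith) h2

theorem arcsin_UU {ρ : ℝ} (hρ0 : 0 ≤ ρ) (β : ℝ → M) (θ : ℝ) (q : M) :
    arcsin (UU ρ β θ q) = aa ρ β θ q := by
  obtain ⟨h1, h2⟩ := aa_mem hρ0 β θ q
  have h4 := arcsin_le_pi_div_two ρ
  exact arcsin_sin (by linarith) (by linarith)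

theorem UU_lip (ρ : ℝ) (β : ℝ → M) (θ : ℝ) (x y : M) : |UU ρ β θ x - UU ρ β θ y| ≤ dist x y :=
  (sin_lip _ _).trans (aa_lip ρ β θ x y)

theorem UU_theta {ρ k : ℝ} (hρ0 : 0 ≤ ρ) (hk : k ^ 2 + ρ ^ 2 = 1) (β : ℝ → M) (θ θ' : ℝ) (q : M) :
    |UU ρ β θ q - UU ρ β θ' q| ≤ |θ - θ'| :=
  (sin_lip _ _).trans (aa_theta hρ0 hk β θ θ' q)

theorem UU_bdry {ρ k : ℝ} (hρ0 : 0 ≤ ρ) (hk : k ^ 2 + ρ ^ 2 = 1) {β : ℝ → M}
    (hβ : ∀ s t, arccos (k ^ 2 + ρ ^ 2 * cos (s - t)) ≤ dist (β s) (β t)) (θ s : ℝ) :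
    UU ρ β θ (β s) = -(ρ * cos (s - θ)) := by
  have hρ1 : ρ ≤ 1 := by nlinarith [sq_nonneg k]
  have hx := abs_le.1 (abs_cos_le_one (s - θ))
  have h1 : ρ * cos (s - θ) ≤ ρ := by nlinarith
  have h2 : -ρ ≤ ρ * cos (s - θ) := by nlinarith
  unfold UU aa
  rw [AA_bdry hρ0 hk hβ, cl_eq, sin_neg, sin_arcsin (by linarith) (by linarith)]
  · exact neg_le_neg (monotone_arcsin h1)
  · rw [← arcsin_neg]
    exact monotone_arcsin (by linarith)

/-- The derivative of the sine of the truncated extension. -/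
theorem UU_deriv {ρ : ℝ} (hρ0 : 0 ≤ ρ) (hρ1 : ρ < 1) (β : ℝ → M) (θ : ℝ)
    {g : Pool.Agent.H115R3.Filling.RiemMetric} {ch : ℝ × ℝ → M}
    (hch : ∀ p ∈ Pool.Agent.H115R3.Filling.Sq, ∀ q ∈ Pool.Agent.H115R3.Filling.Sq,
      dist (ch p) (ch q) ≤ g.segLength p q) {x : ℝ × ℝ} (hx : x ∈ Pool.Agent.H115R3.Filling.Sqo)
    (v : ℝ × ℝ) :
    (fderiv ℝ (fun p => UU ρ β θ (ch p)) x v) ^ 2 ≤ (1 - UU ρ β θ (ch x) ^ 2) *
      (g.E x * v.1 ^ 2 + 2 * g.F x * v.1 * v.2 + g.G x * v.2 ^ 2) := by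
  have hU := UU_mem hρ0 hρ1.le β θ (ch x)
  have hU2 : UU ρ β θ (ch x) ^ 2 ≤ ρ ^ 2 := sq_le_sq' hU.1 hU.2
  have hρ2 : ρ ^ 2 < 1 := by nlinarith
  by_cases hd : DifferentiableAt ℝ (fun p => UU ρ β θ (ch p)) x
  · have ha : (fun p => aa ρ β θ (ch p)) = fun p => arcsin (UU ρ β θ (ch p)) := by
      funext p
      rw [arcsin_UU hρ0]
    have hda : DifferentiableAt ℝ (fun p => aa ρ β θ (ch p)) x := by
      rw [ha]
      have h0 : DifferentiableAt ℝ arcsin (UU ρ β θ (ch x)) := by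
        rw [differentiableAt_arcsin]
        constructor <;> intro h <;> rw [h] at hU2 <;> norm_num at hU2 <;> linarith
      exact DifferentiableAt.comp (g := arcsin) (f := fun p => UU ρ β θ (ch p)) x h0 hd
    have hseg : Pool.Agent.H115R3.Filling.SegLip g (fun p => aa ρ β θ (ch p)) := by
      intro p hp q hq
      refine (aa_lip ρ β θ _ _).trans ?_
      rw [dist_comm]
      exact hch p hp q hq
    have h1 := hseg.deriv_le hx hda v
    have h2 : HasFDerivAt (fun p => UU ρ β θ (ch p))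
        (cos (aa ρ β θ (ch x)) • fderiv ℝ (fun p => aa ρ β θ (ch p)) x) x :=
      hda.hasFDerivAt.sin
    rw [h2.fderiv, ContinuousLinearMap.smul_apply, smul_eq_mul, mul_pow]
    have h3 : cos (aa ρ β θ (ch x)) ^ 2 = 1 - UU ρ β θ (ch x) ^ 2 := by
      unfold UU
      linarith [sin_sq_add_cos_sq (aa ρ β θ (ch x))]
    rw [h3]
    exact mul_le_mul_of_nonneg_left h1 (by linarith)
  · rw [fderiv_zero_of_not_differentiableAt hd, ContinuousLinearMap.zero_apply]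
    have h1 := g.quad_nonneg (Pool.Agent.H115R3.Filling.Sqo_sub hx) v.1 v.2
    have : 0 ≤ 1 - UU ρ β θ (ch x) ^ 2 := by linarith
    rw [zero_pow two_ne_zero]
    exact mul_nonneg this h1

end

end Pool.Agent.Q183.CAP
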