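import Pool.Agent.Q183.CAP.E

/-!
# The Jacobian of the centre map
-/

set_option autoImplicit false
set_option linter.unreachableTactic false
set_option linter.unusedTactic false

open Real MeasureTheory Set Filter Topology

namespace Pool.Agent.Q183.CAP

theorem form_le (z : ℂ) (θ : ℝ) : |z.re * cos θ + z.im * sin θ| ≤ ‖z‖ := by
  apply abs_le_of_sq_le_sq _ (norm_nonneg _)
  rw [normsq]
  nlinarith [sin_sq_add_cos_sq θ, sq_nonneg (z.re * sin θ - z.im * cos θ)]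

theorem Lf_le (z : ℂ) (θ : ℝ) : |Lf z θ| ≤ ‖z‖ := form_le z θ

theorem pt_lip {ρ u w : ℝ} (hρ0 : 0 ≤ ρ) (hρ : ρ ^ 2 ≤ 1 / 3) (hu : u ^ 2 ≤ ρ ^ 2) (y z : ℝ) :
    |pt ρ u y - pt ρ w z| ≤ 3 * |u - w| + 12 * |y - z| := by
  have h1 : |pt ρ u y - pt ρ u z| ≤ 12 * |y - z| := by
    rcases le_total y z with h | h
    · obtain ⟨h2, h3⟩ := pt_slope hρ0 hρ hu h
      rw [abs_sub_comm, abs_sub_comm y z, abs_of_nonneg (by linarith), abs_of_nonneg (by linarith)]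
      exact h3
    · obtain ⟨h2, h3⟩ := pt_slope hρ0 hρ hu h
      rw [abs_of_nonneg (by linarith), abs_of_nonneg (by linarith)]
      exact h3
  have h2 := pt_u (u := u) (w := w) hρ0 hρ z
  have h3 : pt ρ u y - pt ρ w z = (pt ρ u y - pt ρ u z) + (pt ρ u z - pt ρ w z) := by ring
  rw [h3]
  refine (abs_add_le _ _).trans ?_
  linarith

theorem pt_hasDerivAt {ρ : ℝ} (hρ : ρ ^ 2 ≤ 1 / 3) {u y : ℝ → ℝ} {u' y' : ℝ}
    (hu : HasDerivAt u u' 0) (hy : HasDerivAt y y' 0) (h1 : |y 0| < ρ) :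
    HasDerivAt (fun t => pt ρ (u t) (y t)) (kh (u 0) (y 0) * y' + u' * (1 / (1 - y 0 ^ 2) ^ 2)) 0 := by
  have h2 := abs_lt.1 h1
  have h3 : ∀ᶠ t in 𝓝 (0 : ℝ), pt ρ (u t) (y t) = (u t + y t) / (1 - y t ^ 2) ^ 2 := by
    filter_upwards [hy.continuousAt.eventually (lt_mem_nhds h2.1),
      hy.continuousAt.eventually (gt_mem_nhds h2.2)] with t ht1 ht2
    unfold pt
    rw [cl_eq ht1.le ht2.le, sub_self, add_zero]
    rfl
  refine HasDerivAt.congr_of_eventuallyEq ?_ h3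
  have h4 : y 0 ^ 2 ≤ ρ ^ 2 := sq_le_sq' h2.1.le h2.2.le
  have hne : (1 - y 0 ^ 2) ≠ 0 := by
    have : 0 < 1 - y 0 ^ 2 := by linarith
    exact this.ne'
  have h5 : HasDerivAt (fun t => (1 - y t ^ 2)) (-(2 * y 0 * y')) 0 := by
    refine ((hy.pow 2).const_sub 1).congr_deriv ?_
    simp
  have h6 : HasDerivAt (fun t => (1 - y t ^ 2) ^ 2) (2 * (1 - y 0 ^ 2) * (-(2 * y 0 * y'))) 0 := by
    refine (h5.pow 2).congr_deriv ?_
    simp
  refine ((hu.add hy).div h6 (pow_ne_zero 2 hne)).congr_deriv ?_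
  unfold kh
  simp only [Pi.add_apply]
  field_simp
  ring

section

variable {ρ Λ Λ' : ℝ} {w : ℝ → ℝ × ℝ → ℝ} {P : ℝ × ℝ → ℂ} {x : ℝ × ℝ}

theorem w_BM (hρ0 : 0 < ρ) (hwc : Continuous (Function.uncurry w))
    (hwr : ∀ θ p, w θ p ^ 2 ≤ ρ ^ 2) (p : ℝ × ℝ) : BM fun θ => w θ p := by
  refine BM.of_cont (C := ρ) ?_ fun θ => abs_le_of_sq_le_sq (hwr θ p) hρ0.le
  exact hwc.comp (by fun_prop : Continuous fun θ : ℝ => (θ, p))

theorem deriv_eq (hρ0 : 0 < ρ) (hρ : ρ ^ 2 ≤ 1 / 3) (hwc : Continuous (Function.uncurry w))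
    (hwr : ∀ θ p, w θ p ^ 2 ≤ ρ ^ 2) (hwl : ∀ θ p p', |w θ p - w θ p'| ≤ Λ * ‖p - p'‖)
    (hPl : ∀ p p', ‖P p - P p'‖ ≤ Λ' * ‖p - p'‖) (hPx : ‖P x‖ < ρ)
    (hd1 : DifferentiableAt ℝ (fun p => (P p).re) x)
    (hd2 : DifferentiableAt ℝ (fun p => (P p).im) x)
    (hwd : ∀ᵐ θ : ℝ, DifferentiableAt ℝ (w θ) x) {c : ℝ → ℝ} (hc : BM c)
    (heq : ∀ᶠ p in 𝓝 x, II (fun θ => pt ρ (w θ p) (Lf (P p) θ) * c θ) = 0) (h : ℝ × ℝ) :
    II (fun θ => (kh (w θ x) (Lf (P x) θ) * (fderiv ℝ (fun p => (P p).re) x h * cos θ +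
      fderiv ℝ (fun p => (P p).im) x h * sin θ) +
      fderiv ℝ (w θ) x h * (1 / (1 - Lf (P x) θ ^ 2) ^ 2)) * c θ) = 0 := by
  obtain ⟨hcm, C, hC⟩ := hc
  have hC0 : 0 ≤ C := (abs_nonneg _).trans (hC 0)
  have hΛ : 0 ≤ Λ := by
    have h1 := (abs_nonneg _).trans (hwl 0 (1, 0) (0, 0))
    have h2 : ‖((1 : ℝ), (0 : ℝ)) - ((0 : ℝ), (0 : ℝ))‖ = 1 := by
      rw [Prod.mk_sub_mk, sub_zero, sub_zero, Prod.norm_mk]
      simp
    rw [h2, mul_one] at h1
    exact h1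
  have hΛ' : 0 ≤ Λ' := by
    have h1 := (norm_nonneg _).trans (hPl (1, 0) (0, 0))
    have h2 : ‖((1 : ℝ), (0 : ℝ)) - ((0 : ℝ), (0 : ℝ))‖ = 1 := by
      rw [Prod.mk_sub_mk, sub_zero, sub_zero, Prod.norm_mk]
      simp
    rw [h2, mul_one] at h1
    exact h1
  have hm1 : Measurable fun θ => w θ x := (w_BM hρ0 hwc hwr x).1
  have hm2 : Measurable fun θ => Lf (P x) θ := (BM.Lf (P x)).1
  have hm3 : Measurable fun θ => fderiv ℝ (w θ) x h := by
    have h1 := measurable_fderiv_apply_const_with_param ℝ hwc h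
    exact h1.comp (by fun_prop : Measurable fun θ : ℝ => (θ, x))
  set B : ℝ := (3 * (Λ * ‖h‖) + 12 * (Λ' * ‖h‖)) * C with hB
  have hB0 : 0 ≤ B := by positivity
  have hlip : ∀ θ t t', |pt ρ (w θ (x + t • h)) (Lf (P (x + t • h)) θ) * c θ -
      pt ρ (w θ (x + t' • h)) (Lf (P (x + t' • h)) θ) * c θ| ≤ B * |t - t'| := by
    intro θ t t'
    have e0 : (x + t • h) - (x + t' • h) = (t - t') • h := by module
    rw [← sub_mul, abs_mul]
    have e1 := pt_lip (u := w θ (x + t • h)) (w := w θ (x + t' • h)) hρ0.le hρ (hwr _ _)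
      (Lf (P (x + t • h)) θ) (Lf (P (x + t' • h)) θ)
    have e2 := hwl θ (x + t • h) (x + t' • h)
    have e3 := hPl (x + t • h) (x + t' • h)
    rw [e0, norm_smul, Real.norm_eq_abs] at e2 e3
    have e4 : |Lf (P (x + t • h)) θ - Lf (P (x + t' • h)) θ| ≤ Λ' * (|t - t'| * ‖h‖) := by
      rw [Lf_sub]
      exact (form_le _ θ).trans e3
    calc _ ≤ (3 * (Λ * (|t - t'| * ‖h‖)) + 12 * (Λ' * (|t - t'| * ‖h‖))) * C := by
          refine mul_le_mul (by linarith) (hC θ) (abs_nonneg _) (by positivity)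
      _ = B * |t - t'| := by rw [hB]; ring
  have hline : ∀ f : ℝ × ℝ → ℝ, DifferentiableAt ℝ f x →
      HasDerivAt (fun t : ℝ => f (x + t • h)) (fderiv ℝ f x h) 0 := fun f hf =>
    hf.hasFDerivAt.hasLineDerivAt h
  have hmain := (intervalIntegral.hasDerivAt_integral_of_dominated_loc_of_lip (μ := volume)
    (a := 0) (b := 2 * π)
    (F := fun (t : ℝ) θ => pt ρ (w θ (x + t • h)) (Lf (P (x + t • h)) θ) * c θ)
    (F' := fun θ => (kh (w θ x) (Lf (P x) θ) * (fderiv ℝ (fun p => (P p).re) x h * cos θ +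
      fderiv ℝ (fun p => (P p).im) x h * sin θ) +
      fderiv ℝ (w θ) x h * (1 / (1 - Lf (P x) θ ^ 2) ^ 2)) * c θ)
    (x₀ := (0 : ℝ)) (s := Set.univ) (bound := fun _ => B) Filter.univ_mem ?_ ?_ ?_ ?_ ?_ ?_).2
  · have h1 : HasDerivAt (fun t : ℝ => ∫ θ in (0 : ℝ)..(2 * π),
        pt ρ (w θ (x + t • h)) (Lf (P (x + t • h)) θ) * c θ) 0 0 := by
      refine (hasDerivAt_const (0 : ℝ) (0 : ℝ)).congr_of_eventuallyEq ?_
      have h2 : Tendsto (fun t : ℝ => x + t • h) (𝓝 0) (𝓝 x) := by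
        have : Continuous fun t : ℝ => x + t • h := by fun_prop
        have h3 := this.tendsto 0
        rwa [zero_smul, add_zero] at h3
      exact h2.eventually heq
    exact hmain.unique h1
  · exact Eventually.of_forall fun t =>
      ((BM.pt hρ0.le hρ (w_BM hρ0 hwc hwr _) _).1.mul hcm).aestronglyMeasurable
  · exact BM.int ((BM.pt hρ0.le hρ (w_BM hρ0 hwc hwr _) _).mul ⟨hcm, C, hC⟩) _ _
  · apply Measurable.aestronglyMeasurable
    unfold kh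
    have hcos : Measurable fun θ : ℝ => cos θ := continuous_cos.measurable
    have hsin : Measurable fun θ : ℝ => sin θ := continuous_sin.measurable
    fun_prop
  · refine ae_of_all _ fun θ _ => ?_
    apply LipschitzWith.lipschitzOnWith
    apply LipschitzWith.of_dist_le_mul
    intro t t'
    rw [Real.dist_eq, Real.dist_eq, Real.coe_nnabs, abs_of_nonneg hB0]
    exact hlip θ t t'
  · exact intervalIntegrable_const
  · filter_upwards [hwd] with θ hθ _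
    have e1 := hline (w θ) hθ
    have e2 : HasDerivAt (fun t : ℝ => Lf (P (x + t • h)) θ)
        (fderiv ℝ (fun p => (P p).re) x h * cos θ + fderiv ℝ (fun p => (P p).im) x h * sin θ) 0 :=
      ((hline _ hd1).mul_const _).add ((hline _ hd2).mul_const _)
    have e3 := pt_hasDerivAt hρ e1 e2 (by
      simp only [zero_smul, add_zero]
      exact (Lf_le _ _).trans_lt hPx)
    simp only [zero_smul, add_zero] at e3
    exact e3.mul_const _

/-- The Jacobian of the centre map at an interior value. -/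
theorem jac_le_of_lt (hρ0 : 0 < ρ) (hρ : ρ ^ 2 ≤ 1 / 3) (hwc : Continuous (Function.uncurry w))
    (hwr : ∀ θ p, w θ p ^ 2 ≤ ρ ^ 2) (hwl : ∀ θ p p', |w θ p - w θ p'| ≤ Λ * ‖p - p'‖)
    (hPl : ∀ p p', ‖P p - P p'‖ ≤ Λ' * ‖p - p'‖) (hPx : ‖P x‖ < ρ)
    (hd1 : DifferentiableAt ℝ (fun p => (P p).re) x)
    (hd2 : DifferentiableAt ℝ (fun p => (P p).im) x)
    (hwd : ∀ᵐ θ : ℝ, DifferentiableAt ℝ (w θ) x)
    (heq : ∀ᶠ p in 𝓝 x, T ρ (fun θ => w θ p) (P p) = 0)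
    {E F G : ℝ} (hE : 0 < E) (hΔ : 0 < E * G - F ^ 2)
    (hb : ∀ θ v, (fderiv ℝ (w θ) x v) ^ 2 ≤
      (1 - w θ x ^ 2) * (E * v.1 ^ 2 + 2 * F * v.1 * v.2 + G * v.2 ^ 2)) :
    Pool.Agent.W664.Fill.jac (fun p => (P p).re) (fun p => (P p).im) x ≤
      √(1 - ‖P x‖ ^ 2) * √(E * G - F ^ 2) := by
  have hcB := BM.cos'
  have hsB := BM.sin'
  have hE1 := fun h => deriv_eq hρ0 hρ hwc hwr hwl hPl hPx hd1 hd2 hwd hcB
    (heq.mono fun p hp => congrArg Complex.re hp) h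
  have hE2 := fun h => deriv_eq hρ0 hρ hwc hwr hwl hPl hPx hd1 hd2 hwd hsB
    (heq.mono fun p hp => congrArg Complex.im hp) h
  have hPρ : ‖P x‖ ^ 2 < ρ ^ 2 := by
    have := norm_nonneg (P x)
    nlinarith
  have hk0 : 0 < 1 - ‖P x‖ ^ 2 := by linarith
  have hk : 0 < √(1 - ‖P x‖ ^ 2) := sqrt_pos.2 hk0
  have hk2 : √(1 - ‖P x‖ ^ 2) ^ 2 = 1 - ‖P x‖ ^ 2 := sq_sqrt hk0.le
  have hT := heq.self_of_nhds
  have hph : ∀ θ, pt ρ (w θ x) (Lf (P x) θ) = ph (w θ x) (Lf (P x) θ) := by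
    intro θ
    have h1 := abs_le.1 ((Lf_le (P x) θ).trans hPx.le)
    unfold pt
    rw [cl_eq h1.1 h1.2, sub_self, add_zero]
  have hs1 : II (fun θ => ph (w θ x) (Lf (P x) θ) * cos θ) = 0 := by
    have h1 := congrArg Complex.re hT
    change II (fun θ => pt ρ (w θ x) (Lf (P x) θ) * cos θ) = 0 at h1
    simp only [hph] at h1
    exact h1
  have hs2 : II (fun θ => ph (w θ x) (Lf (P x) θ) * sin θ) = 0 := by
    have h1 := congrArg Complex.im hT
    change II (fun θ => pt ρ (w θ x) (Lf (P x) θ) * sin θ) = 0 at h1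
    simp only [hph] at h1
    exact h1
  -- the orthonormal frame
  set Δ := E * G - F ^ 2 with hΔdef
  set m := √E with hm
  set n := √Δ with hn
  have hm0 : 0 < m := sqrt_pos.2 hE
  have hn0 : 0 < n := sqrt_pos.2 hΔ
  have hm2 : m ^ 2 = E := sq_sqrt hE.le
  have hn2 : n ^ 2 = Δ := sq_sqrt hΔ.le
  set h₁ : ℝ × ℝ := (1 / m, 0) with hh1
  set h₂ : ℝ × ℝ := (-F / (m * n), m / n) with hh2
  have hpm : ∀ h, BM fun θ => fderiv ℝ (w θ) x h := by
    intro h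
    have h1 := measurable_fderiv_apply_const_with_param ℝ hwc h
    refine ⟨h1.comp (by fun_prop : Measurable fun θ : ℝ => (θ, x)),
      √(E * h.1 ^ 2 + 2 * F * h.1 * h.2 + G * h.2 ^ 2), fun θ => ?_⟩
    apply abs_le_sqrt
    refine (hb θ h).trans ?_
    have h2 : 0 ≤ E * h.1 ^ 2 + 2 * F * h.1 * h.2 + G * h.2 ^ 2 := by
      have h3 : E * (E * h.1 ^ 2 + 2 * F * h.1 * h.2 + G * h.2 ^ 2) =
        (E * h.1 + F * h.2) ^ 2 + Δ * h.2 ^ 2 := by rw [hΔdef]; ring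
      have h4 : 0 ≤ E * (E * h.1 ^ 2 + 2 * F * h.1 * h.2 + G * h.2 ^ 2) := by
        rw [h3]
        positivity
      exact nonneg_of_mul_nonneg_right h4 hE
    have h3 : 1 - w θ x ^ 2 ≤ 1 := by linarith [sq_nonneg (w θ x)]
    calc _ ≤ 1 * (E * h.1 ^ 2 + 2 * F * h.1 * h.2 + G * h.2 ^ 2) :=
          mul_le_mul_of_nonneg_right h3 h2
      _ = _ := one_mul _
  have hpq : ∀ θ, (fderiv ℝ (w θ) x h₁) ^ 2 + (fderiv ℝ (w θ) x h₂) ^ 2 ≤ 1 - w θ x ^ 2 := by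
    intro θ
    set p := fderiv ℝ (w θ) x h₁ with hp
    set q := fderiv ℝ (w θ) x h₂ with hq
    have e1 : fderiv ℝ (w θ) x (p • h₁ + q • h₂) = p ^ 2 + q ^ 2 := by
      rw [map_add, map_smul, map_smul, ← hp, ← hq, smul_eq_mul, smul_eq_mul]
      ring
    have e2 := hb θ (p • h₁ + q • h₂)
    rw [e1] at e2
    have e3 : E * (p • h₁ + q • h₂).1 ^ 2 + 2 * F * (p • h₁ + q • h₂).1 * (p • h₁ + q • h₂).2 +
        G * (p • h₁ + q • h₂).2 ^ 2 = p ^ 2 + q ^ 2 := by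
      simp only [hh1, hh2, Prod.smul_mk, Prod.mk_add_mk, smul_eq_mul]
      have e4 : (p * (1 / m) + q * (-F / (m * n))) = (p * n - q * F) / (m * n) := by
        field_simp
        ring
      have e5 : p * 0 + q * (m / n) = q * m / n := by ring
      rw [e4, e5, ← hm2]
      have e6 : m ^ 2 * ((p * n - q * F) / (m * n)) ^ 2 +
          2 * F * ((p * n - q * F) / (m * n)) * (q * m / n) + G * (q * m / n) ^ 2 =
          (p ^ 2 * n ^ 2 + q ^ 2 * (m ^ 2 * G - F ^ 2)) / n ^ 2 := by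
        field_simp
        ring
      rw [e6, hm2, ← hΔdef, ← hn2]
      field_simp
    rw [e3] at e2
    have e4 : 0 ≤ p ^ 2 + q ^ 2 := by positivity
    rcases e4.lt_or_eq with e5 | e5
    · have e6 : (p ^ 2 + q ^ 2) * (p ^ 2 + q ^ 2) ≤ (1 - w θ x ^ 2) * (p ^ 2 + q ^ 2) := by
        rw [← sq]
        exact e2
      exact le_of_mul_le_mul_right e6 e5
    · rw [← e5]
      have := hwr θ x
      linarith
  have hkey := key (x₁ := (P x).re) (x₂ := (P x).im) (k := √(1 - ‖P x‖ ^ 2)) (ρ := ρ) hk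
    (by rw [hk2, normsq]; ring) (by rw [hk2, ← normsq]; linarith) (by linarith)
    (w_BM hρ0 hwc hwr x) (hpm h₁) (hpm h₂) (fun θ => hwr θ x) hpq hs1 hs2 (hE1 h₁) (hE2 h₁)
    (hE1 h₂) (hE2 h₂)
  -- the determinants
  have hlin : ∀ (f : ℝ × ℝ → ℝ) (h : ℝ × ℝ), fderiv ℝ f x h =
      h.1 * fderiv ℝ f x (1, 0) + h.2 * fderiv ℝ f x (0, 1) := by
    intro f h
    have e1 : h = h.1 • ((1 : ℝ), (0 : ℝ)) + h.2 • ((0 : ℝ), (1 : ℝ)) := by
      ext <;> simp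
    conv_lhs => rw [e1]
    rw [map_add, map_smul, map_smul, smul_eq_mul, smul_eq_mul]
  rw [hlin _ h₁, hlin _ h₁, hlin _ h₂, hlin _ h₂] at hkey
  simp only [hh1, hh2] at hkey
  have hfin : Pool.Agent.W664.Fill.jac (fun p => (P p).re) (fun p => (P p).im) x / n ≤
      √(1 - ‖P x‖ ^ 2) := by
    refine le_trans (le_of_eq ?_) hkey
    unfold Pool.Agent.W664.Fill.jac
    field_simp
    ring
  rwa [div_le_iff₀ hn0] at hfin

/-- The Jacobian at a boundary value. -/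
theorem jac_eq_zero (hρ0 : 0 < ρ) (hPx : ‖P x‖ = ρ) (hP : ∀ p, ‖P p‖ ≤ ρ)
    (hd1 : DifferentiableAt ℝ (fun p => (P p).re) x)
    (hd2 : DifferentiableAt ℝ (fun p => (P p).im) x) :
    Pool.Agent.W664.Fill.jac (fun p => (P p).re) (fun p => (P p).im) x = 0 := by
  have h1 : IsLocalMax (fun p => (P p).re ^ 2 + (P p).im ^ 2) x := by
    refine Eventually.of_forall fun p => ?_
    simp only
    rw [← normsq, ← normsq, hPx]
    exact pow_le_pow_left₀ (norm_nonneg _) (hP p) 2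
  have h2 : HasFDerivAt (fun p => (P p).re ^ 2 + (P p).im ^ 2)
      ((2 * (P x).re) • fderiv ℝ (fun p => (P p).re) x +
        (2 * (P x).im) • fderiv ℝ (fun p => (P p).im) x) x := by
    have e1 := (hd1.hasFDerivAt.pow 2).add (hd2.hasFDerivAt.pow 2)
    refine HasFDerivAt.congr_fderiv (f := fun p => (P p).re ^ 2 + (P p).im ^ 2) e1 ?_
    simp
  have h3 := h1.hasFDerivAt_eq_zero h2
  have h4 : ∀ v, (P x).re * fderiv ℝ (fun p => (P p).re) x v +
      (P x).im * fderiv ℝ (fun p => (P p).im) x v = 0 := by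
    intro v
    have h5 := congrArg (fun L : ℝ × ℝ →L[ℝ] ℝ => L v) h3
    simp at h5
    linarith
  have h5 : (P x).re ^ 2 + (P x).im ^ 2 = ρ ^ 2 := by rw [← normsq, hPx]
  have h6 : ρ ^ 2 * Pool.Agent.W664.Fill.jac (fun p => (P p).re) (fun p => (P p).im) x = 0 := by
    rw [← h5]
    unfold Pool.Agent.W664.Fill.jac
    have e1 := h4 (1, 0)
    have e2 := h4 (0, 1)
    linear_combination ((P x).re * fderiv ℝ (fun p => (P p).im) x (0, 1) -
      (P x).im * fderiv ℝ (fun p => (P p).re) x (0, 1)) * e1 +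
      ((P x).im * fderiv ℝ (fun p => (P p).re) x (1, 0) -
      (P x).re * fderiv ℝ (fun p => (P p).im) x (1, 0)) * e2
  exact (mul_eq_zero.1 h6).resolve_left (by positivity)

end

end Pool.Agent.Q183.CAP
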