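import Pool.Agent.Q183.CAP.F

/-!
# Projection to the disc and the equal-area map
-/

set_option autoImplicit false

open Real MeasureTheory Set Filter Topology

namespace Pool.Agent.Q183.CAP

/-- radial projection to the disc -/
noncomputable def pr (ρ : ℝ) (z : ℂ) : ℂ := ((ρ / max ρ ‖z‖ : ℝ) : ℂ) * z

theorem norm_pr {ρ : ℝ} (hρ : 0 < ρ) (z : ℂ) : ‖pr ρ z‖ = ρ / max ρ ‖z‖ * ‖z‖ := by
  unfold pr
  rw [norm_mul, Complex.norm_real, Real.norm_eq_abs, abs_of_nonneg]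
  have : 0 < max ρ ‖z‖ := lt_max_of_lt_left hρ
  positivity

theorem norm_pr_le {ρ : ℝ} (hρ : 0 < ρ) (z : ℂ) : ‖pr ρ z‖ ≤ ρ := by
  have h1 : 0 < max ρ ‖z‖ := lt_max_of_lt_left hρ
  rw [norm_pr hρ, div_mul_eq_mul_div, div_le_iff₀ h1]
  exact mul_le_mul_of_nonneg_left (le_max_right _ _) hρ.le

theorem pr_eq {ρ : ℝ} (hρ : 0 < ρ) {z : ℂ} (hz : ‖z‖ ≤ ρ) : pr ρ z = z := by
  unfold pr
  rw [max_eq_left hz, div_self hρ.ne', Complex.ofReal_one, one_mul]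

theorem lt_of_pr {ρ : ℝ} (hρ : 0 < ρ) {z : ℂ} (hz : ‖pr ρ z‖ < ρ) : ‖z‖ ≤ ρ := by
  by_contra h
  push Not at h
  rw [norm_pr hρ, max_eq_right h.le] at hz
  have : ρ / ‖z‖ * ‖z‖ = ρ := by
    have : ‖z‖ ≠ 0 := (hρ.trans h).ne'
    field_simp
  rw [this] at hz
  exact lt_irrefl _ hz

theorem pr_lip {ρ : ℝ} (hρ : 0 < ρ) (z w : ℂ) : ‖pr ρ z - pr ρ w‖ ≤ 2 * ‖z - w‖ := by
  set m := max ρ ‖z‖ with hm
  set n := max ρ ‖w‖ with hn
  have hm0 : 0 < m := lt_max_of_lt_left hρ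
  have hn0 : 0 < n := lt_max_of_lt_left hρ
  have hmρ : ρ ≤ m := le_max_left _ _
  have hnw : ‖w‖ ≤ n := le_max_right _ _
  have hmn : |n - m| ≤ ‖z - w‖ := by
    have h1 : |n - m| ≤ |‖w‖ - ‖z‖| := by
      rw [hm, hn]
      have := abs_max_sub_max_le_max ρ ‖w‖ ρ ‖z‖
      rw [sub_self, abs_zero] at this
      exact this.trans (le_of_eq (max_eq_right (abs_nonneg _)))
    refine h1.trans ?_
    rw [abs_sub_comm]
    exact abs_norm_sub_norm_le z w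
  have h1 : pr ρ z - pr ρ w = ((ρ / m : ℝ) : ℂ) * (z - w) + ((ρ / m * ((n - m) / n) : ℝ) : ℂ) * w := by
    unfold pr
    rw [← hm, ← hn]
    have h2 : ρ / m * ((n - m) / n) = ρ / m - ρ / n := by
      field_simp
    rw [h2]
    push_cast
    ring
  rw [h1]
  refine (norm_add_le _ _).trans ?_
  rw [norm_mul, norm_mul, Complex.norm_real, Complex.norm_real, Real.norm_eq_abs, Real.norm_eq_abs,
    abs_mul, abs_div (n - m), abs_of_pos hn0, abs_of_pos (div_pos hρ hm0)]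
  have h3 : ρ / m ≤ 1 := (div_le_one hm0).2 hmρ
  have h4 : ρ / m * ‖z - w‖ ≤ ‖z - w‖ := by
    have := mul_le_mul_of_nonneg_right h3 (norm_nonneg (z - w))
    linarith
  have h5 : ρ / m * (|n - m| / n) * ‖w‖ ≤ ‖z - w‖ := by
    have h6 : |n - m| / n * ‖w‖ ≤ |n - m| := by
      rw [div_mul_eq_mul_div, div_le_iff₀ hn0]
      exact mul_le_mul_of_nonneg_left hnw (abs_nonneg _)
    calc ρ / m * (|n - m| / n) * ‖w‖ = ρ / m * (|n - m| / n * ‖w‖) := by ring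
      _ ≤ 1 * |n - m| := mul_le_mul h3 h6 (by positivity) zero_le_one
      _ ≤ ‖z - w‖ := by linarith
  linarith

/-- the factor of the equal-area map -/
noncomputable def lam (s : ℝ) : ℝ := √(2 / (1 + √(1 - s)))

theorem lam_sq {s : ℝ} : lam s ^ 2 = 2 / (1 + √(1 - s)) := by
  unfold lam
  exact sq_sqrt (by positivity)

theorem lam_pos (s : ℝ) : 0 < lam s := by
  unfold lam
  positivity

theorem lam_deriv {s : ℝ} (hs : s < 1) :
    HasDerivAt lam (1 / (√(1 - s) * (1 + √(1 - s)) ^ 2) / (2 * lam s)) s := by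
  have h0 : 0 < 1 - s := by linarith
  have hw : 0 < √(1 - s) := sqrt_pos.2 h0
  have h1 : HasDerivAt (fun t : ℝ => √(1 - t)) (-1 / (2 * √(1 - s))) s := by
    have e1 : HasDerivAt (fun t : ℝ => 1 - t) (-1) s := (hasDerivAt_id s).const_sub 1
    exact e1.sqrt h0.ne'
  have h2 : HasDerivAt (fun t : ℝ => 2 / (1 + √(1 - t)))
      (1 / (√(1 - s) * (1 + √(1 - s)) ^ 2)) s := by
    have e1 := (hasDerivAt_const s (2 : ℝ)).div (h1.const_add 1) (by positivity)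
    refine e1.congr_deriv ?_
    field_simp
    ring
  exact h2.sqrt (by positivity)

theorem lam_lip {s t : ℝ} (hs : s ≤ 1 / 3) (ht : t ≤ 1 / 3) (hs0 : 0 ≤ s) (ht0 : 0 ≤ t) :
    |lam s - lam t| ≤ |s - t| := by
  have hbd : ∀ r : ℝ, 0 ≤ r → r ≤ 1 / 3 → 1 / 2 ≤ √(1 - r) ∧ √(1 - r) ≤ 1 := by
    intro r h0 h1
    constructor
    · apply le_sqrt_of_sq_le
      linarith
    · exact sqrt_le_iff.2 ⟨zero_le_one, by linarith⟩
  obtain ⟨a1, a2⟩ := hbd s hs0 hs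
  obtain ⟨b1, b2⟩ := hbd t ht0 ht
  set a := √(1 - s) with ha
  set b := √(1 - t) with hb
  have ha2 : a ^ 2 = 1 - s := sq_sqrt (by linarith)
  have hb2 : b ^ 2 = 1 - t := sq_sqrt (by linarith)
  have h1 : |a - b| ≤ |s - t| := by
    have e1 : (a - b) * (a + b) = t - s := by linear_combination ha2 - hb2
    have e2 : |a - b| * (a + b) = |s - t| := by
      rw [abs_sub_comm s t, ← e1, abs_mul, abs_of_pos (by linarith : 0 < a + b)]
    have e3 := mul_le_mul_of_nonneg_left (by linarith : (1 : ℝ) ≤ a + b) (abs_nonneg (a - b))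
    linarith
  have hl1 : 1 ≤ lam s := by
    unfold lam
    rw [one_le_sqrt, le_div_iff₀ (by positivity)]
    linarith
  have hl2 : 1 ≤ lam t := by
    unfold lam
    rw [one_le_sqrt, le_div_iff₀ (by positivity)]
    linarith
  have e1 : (lam s - lam t) * (lam s + lam t) = 2 * (b - a) / ((1 + a) * (1 + b)) := by
    have e2 := lam_sq (s := s)
    have e3 := lam_sq (s := t)
    rw [← ha] at e2
    rw [← hb] at e3
    have e4 : (lam s - lam t) * (lam s + lam t) = lam s ^ 2 - lam t ^ 2 := by ring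
    rw [e4, e2, e3]
    have e5 : (1 + a) ≠ 0 := by positivity
    have e6 : (1 + b) ≠ 0 := by positivity
    field_simp
    ring
  have e2 : |lam s - lam t| * (lam s + lam t) = 2 * |a - b| / ((1 + a) * (1 + b)) := by
    rw [← abs_of_pos (by linarith : 0 < lam s + lam t), ← abs_mul, e1, abs_div, abs_mul,
      abs_of_pos (by positivity : 0 < (1 + a) * (1 + b)), abs_sub_comm b a, abs_two]
  have e3 : 2 * |a - b| / ((1 + a) * (1 + b)) ≤ 2 * |a - b| := by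
    apply div_le_self (by positivity)
    nlinarith
  have e4 := mul_le_mul_of_nonneg_left (by linarith : (2 : ℝ) ≤ lam s + lam t)
    (abs_nonneg (lam s - lam t))
  linarith

/-- the equal-area map -/
noncomputable def lamb (z : ℂ) : ℂ := ((lam (‖z‖ ^ 2) : ℝ) : ℂ) * z

theorem lamb_lip {ρ : ℝ} (hρ0 : 0 ≤ ρ) (hρ : ρ ^ 2 ≤ 1 / 3) {z w : ℂ} (hz : ‖z‖ ≤ ρ) (hw : ‖w‖ ≤ ρ) :
    ‖lamb z - lamb w‖ ≤ 4 * ‖z - w‖ := by
  have hz2 : ‖z‖ ^ 2 ≤ 1 / 3 := (pow_le_pow_left₀ (norm_nonneg _) hz 2).trans hρ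
  have hw2 : ‖w‖ ^ 2 ≤ 1 / 3 := (pow_le_pow_left₀ (norm_nonneg _) hw 2).trans hρ
  have hρ1 : ρ ≤ 1 := by nlinarith
  have h1 := lam_lip hz2 hw2 (sq_nonneg _) (sq_nonneg _)
  have h2 : |‖z‖ ^ 2 - ‖w‖ ^ 2| ≤ 2 * ‖z - w‖ := by
    have e1 : ‖z‖ ^ 2 - ‖w‖ ^ 2 = (‖z‖ - ‖w‖) * (‖z‖ + ‖w‖) := by ring
    rw [e1, abs_mul, abs_of_nonneg (by positivity : 0 ≤ ‖z‖ + ‖w‖)]
    have e2 := abs_norm_sub_norm_le z w
    calc _ ≤ ‖z - w‖ * 2 := mul_le_mul e2 (by linarith) (by positivity) (norm_nonneg _)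
      _ = _ := by ring
  have h3 : lam (‖z‖ ^ 2) ≤ 2 := by
    have e1 := lam_sq (s := ‖z‖ ^ 2)
    have e2 : 2 / (1 + √(1 - ‖z‖ ^ 2)) ≤ 2 := by
      apply div_le_self (by norm_num)
      have := sqrt_nonneg (1 - ‖z‖ ^ 2)
      linarith
    have e3 := lam_pos (‖z‖ ^ 2)
    nlinarith
  have h4 : lamb z - lamb w = ((lam (‖z‖ ^ 2) : ℝ) : ℂ) * (z - w) +
      ((lam (‖z‖ ^ 2) - lam (‖w‖ ^ 2) : ℝ) : ℂ) * w := by
    unfold lamb
    push_cast
    ring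
  rw [h4]
  refine (norm_add_le _ _).trans ?_
  rw [norm_mul, norm_mul, Complex.norm_real, Complex.norm_real, Real.norm_eq_abs, Real.norm_eq_abs,
    abs_of_pos (lam_pos _)]
  have h5 : lam (‖z‖ ^ 2) * ‖z - w‖ ≤ 2 * ‖z - w‖ := mul_le_mul_of_nonneg_right h3 (norm_nonneg _)
  have h6 : |lam (‖z‖ ^ 2) - lam (‖w‖ ^ 2)| * ‖w‖ ≤ (2 * ‖z - w‖) * 1 :=
    mul_le_mul (h1.trans h2) (hw.trans hρ1) (norm_nonneg _) (by positivity)
  linarith

/-- The Jacobian of the equal-area map. -/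
theorem jac_lamb {a b : ℝ × ℝ → ℝ} {x : ℝ × ℝ} (ha : DifferentiableAt ℝ a x)
    (hb : DifferentiableAt ℝ b x) (hs : a x ^ 2 + b x ^ 2 < 1) :
    DifferentiableAt ℝ (fun p => lam (a p ^ 2 + b p ^ 2) * a p) x ∧
    DifferentiableAt ℝ (fun p => lam (a p ^ 2 + b p ^ 2) * b p) x ∧
    Pool.Agent.W664.Fill.jac (fun p => lam (a p ^ 2 + b p ^ 2) * a p)
      (fun p => lam (a p ^ 2 + b p ^ 2) * b p) x =
      Pool.Agent.W664.Fill.jac a b x / √(1 - (a x ^ 2 + b x ^ 2)) := by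
  set s := a x ^ 2 + b x ^ 2 with hsdef
  set l' := 1 / (√(1 - s) * (1 + √(1 - s)) ^ 2) / (2 * lam s) with hl'
  have hS : HasFDerivAt (fun p => a p ^ 2 + b p ^ 2)
      ((2 * a x) • fderiv ℝ a x + (2 * b x) • fderiv ℝ b x) x := by
    have e1 := (ha.hasFDerivAt.pow 2).add (hb.hasFDerivAt.pow 2)
    refine HasFDerivAt.congr_fderiv (f := fun p => a p ^ 2 + b p ^ 2) e1 ?_
    simp
  have hL : HasFDerivAt (fun p => lam (a p ^ 2 + b p ^ 2))
      (l' • ((2 * a x) • fderiv ℝ a x + (2 * b x) • fderiv ℝ b x)) x :=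
    HasDerivAt.comp_hasFDerivAt (h₂ := lam) (f := fun p => a p ^ 2 + b p ^ 2) x (lam_deriv hs) hS
  have h1 := hL.mul ha.hasFDerivAt
  have h2 := hL.mul hb.hasFDerivAt
  refine ⟨h1.differentiableAt, h2.differentiableAt, ?_⟩
  have e1 : ∀ v, fderiv ℝ (fun p => lam (a p ^ 2 + b p ^ 2) * a p) x v =
      lam s * fderiv ℝ a x v + a x * (l' * (2 * a x * fderiv ℝ a x v + 2 * b x * fderiv ℝ b x v)) := by
    intro v
    have := h1.fderiv
    rw [show (fun p => lam (a p ^ 2 + b p ^ 2) * a p) =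
      ((fun p => lam (a p ^ 2 + b p ^ 2)) * a) from rfl, this]
    simp
    rw [← hsdef]
    ring
  have e2 : ∀ v, fderiv ℝ (fun p => lam (a p ^ 2 + b p ^ 2) * b p) x v =
      lam s * fderiv ℝ b x v + b x * (l' * (2 * a x * fderiv ℝ a x v + 2 * b x * fderiv ℝ b x v)) := by
    intro v
    have := h2.fderiv
    rw [show (fun p => lam (a p ^ 2 + b p ^ 2) * b p) =
      ((fun p => lam (a p ^ 2 + b p ^ 2)) * b) from rfl, this]
    simp
    rw [← hsdef]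
    ring
  have hw : 0 < √(1 - s) := sqrt_pos.2 (by linarith)
  have hw2 : √(1 - s) ^ 2 = 1 - s := sq_sqrt (by linarith)
  have hl2 := lam_sq (s := s)
  have hlp := lam_pos s
  have h3 : lam s ^ 2 + 2 * s * (lam s * l') = 1 / √(1 - s) := by
    have e3 : lam s * l' = 1 / (√(1 - s) * (1 + √(1 - s)) ^ 2) / 2 := by
      rw [hl']
      field_simp
    rw [e3, hl2]
    have e4 : s = 1 - √(1 - s) ^ 2 := by linarith
    set w := √(1 - s) with hwdef
    have e5 : 2 / (1 + w) + 2 * (1 - w ^ 2) * (1 / (w * (1 + w) ^ 2) / 2) = 1 / w := by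
      field_simp
      ring
    rw [← e5, ← e4]
  have h4 : Pool.Agent.W664.Fill.jac (fun p => lam (a p ^ 2 + b p ^ 2) * a p)
      (fun p => lam (a p ^ 2 + b p ^ 2) * b p) x =
      (lam s ^ 2 + 2 * s * (lam s * l')) * Pool.Agent.W664.Fill.jac a b x := by
    unfold Pool.Agent.W664.Fill.jac
    rw [e1, e1, e2, e2, hsdef]
    ring
  rw [h4, h3]
  ring

end Pool.Agent.Q183.CAP
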