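import Pool.Agent.Q183.CAP.G

/-!
# The area of a filling of the boundary of a small spherical cap
-/

set_option autoImplicit false

open Real MeasureTheory Set Filter Topology

namespace Pool.Agent.Q183.CAP

open Pool.Agent.H115R3.Filling Pool.Agent.W664.Fill

/-- truncation to the unit interval -/
noncomputable def c01 (t : ℝ) : ℝ := max 0 (min 1 t)

theorem c01_mem (t : ℝ) : c01 t ∈ Set.Icc (0 : ℝ) 1 :=
  ⟨le_max_left _ _, max_le zero_le_one (min_le_left _ _)⟩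

theorem c01_eq {t : ℝ} (h : t ∈ Set.Icc (0 : ℝ) 1) : c01 t = t := by
  unfold c01
  rw [min_eq_right h.2, max_eq_right h.1]

theorem c01_lip (s t : ℝ) : |c01 s - c01 t| ≤ |s - t| := by
  unfold c01
  have h1 := abs_max_sub_max_le_max 0 (min 1 s) 0 (min 1 t)
  have h2 := abs_min_sub_min_le_max 1 s 1 t
  rw [sub_self, abs_zero] at h1 h2
  exact (h1.trans (le_of_eq (max_eq_right (abs_nonneg _)))).trans
    (h2.trans (le_of_eq (max_eq_right (abs_nonneg _))))

/-- the projection to the square -/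
noncomputable def sqc (p : ℝ × ℝ) : ℝ × ℝ := (c01 p.1, c01 p.2)

theorem sqc_mem (p : ℝ × ℝ) : sqc p ∈ Sq := ⟨c01_mem _, c01_mem _⟩

theorem sqc_eq {p : ℝ × ℝ} (h : p ∈ Sq) : sqc p = p := by
  unfold sqc
  rw [c01_eq h.1, c01_eq h.2]

theorem sqc_lip (p q : ℝ × ℝ) : ‖sqc p - sqc q‖ ≤ ‖p - q‖ := by
  rw [Prod.norm_def, Prod.norm_def]
  exact max_le_max (c01_lip _ _) (c01_lip _ _)

theorem segLength_le_norm (g : RiemMetric) {C : ℝ} (hC : ∀ p ∈ Sq, ∀ v, g.norm p v ≤ C * ‖v‖)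
    {p q : ℝ × ℝ} (hp : p ∈ Sq) (hq : q ∈ Sq) : g.segLength p q ≤ C * ‖p - q‖ := by
  apply g.segLength_le
  intro t ht0 ht1
  rw [norm_sub_rev p q]
  exact hC _ (seg_mem hp hq ht0 ht1) _

section

variable {M : Type} [MetricSpace M]

theorem UU_BM {ρ k : ℝ} (hρ0 : 0 ≤ ρ) (hk : k ^ 2 + ρ ^ 2 = 1) (β : ℝ → M) (q : M) :
    BM fun θ => UU ρ β θ q := by
  have hρ1 : ρ ≤ 1 := by nlinarith [sq_nonneg k]
  refine BM.of_cont (C := ρ) ?_ fun θ => abs_le.2 (UU_mem hρ0 hρ1 β θ q)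
  have : LipschitzWith 1 fun θ => UU ρ β θ q := by
    apply LipschitzWith.of_dist_le_mul
    intro θ θ'
    rw [Real.dist_eq, Real.dist_eq, NNReal.coe_one, one_mul]
    exact UU_theta hρ0 hk β θ θ' q
  exact this.continuous

theorem UU_sq {ρ : ℝ} (hρ0 : 0 ≤ ρ) (hρ1 : ρ ≤ 1) (β : ℝ → M) (θ : ℝ) (q : M) :
    UU ρ β θ q ^ 2 ≤ ρ ^ 2 :=
  sq_le_sq' (UU_mem hρ0 hρ1 β θ q).1 (UU_mem hρ0 hρ1 β θ q).2

/-- The Jacobian of the centre map in a chart. -/
theorem chart_ae {ρ k : ℝ} (hρ0 : 0 < ρ) (hk : k ^ 2 + ρ ^ 2 = 1) (hρ : ρ ^ 2 ≤ 1 / 3) {β : ℝ → M}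
    {X : M → ℂ} (hX : ∀ q, T ρ (fun θ => UU ρ β θ q) (X q) = 0)
    (hXl : ∀ q q', ‖X q - X q'‖ ≤ 11 * dist q q') (g : RiemMetric) (ch : ℝ × ℝ → M)
    (hch : ∀ p ∈ Sq, ∀ q ∈ Sq, dist (ch p) (ch q) ≤ g.segLength p q) :
    ∀ᵐ x ∂(volume.restrict Sqo), DifferentiableAt ℝ (fun p => (pr ρ (X (ch p))).re) x ∧
      DifferentiableAt ℝ (fun p => (pr ρ (X (ch p))).im) x ∧
      jac (fun p => (pr ρ (X (ch p))).re) (fun p => (pr ρ (X (ch p))).im) x ≤
        √(1 - ‖pr ρ (X (ch x))‖ ^ 2) * √(g.E x * g.G x - g.F x ^ 2) := by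
  have hρ1 : ρ < 1 := by nlinarith
  obtain ⟨C, hC0, hC⟩ := g.exists_bound
  set ch' : ℝ × ℝ → M := fun p => ch (sqc p) with hch'
  have hdist : ∀ p q, dist (ch' p) (ch' q) ≤ C * ‖p - q‖ := by
    intro p q
    refine (hch _ (sqc_mem p) _ (sqc_mem q)).trans ?_
    refine (segLength_le_norm g hC (sqc_mem p) (sqc_mem q)).trans ?_
    exact mul_le_mul_of_nonneg_left (sqc_lip p q) hC0
  set w : ℝ → ℝ × ℝ → ℝ := fun θ p => UU ρ β θ (ch' p) with hw
  have hwl : ∀ θ p p', |w θ p - w θ p'| ≤ C * ‖p - p'‖ := fun θ p p' =>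
    (UU_lip ρ β θ _ _).trans (hdist p p')
  have hwc : Continuous (Function.uncurry w) := by
    have h1 : LipschitzWith (Real.toNNReal (1 + C)) (Function.uncurry w) := by
      apply LipschitzWith.of_dist_le_mul
      rintro ⟨θ, p⟩ ⟨θ', p'⟩
      rw [Real.dist_eq, Real.coe_toNNReal _ (by linarith)]
      have e1 : |w θ p - w θ' p'| ≤ |θ - θ'| + C * ‖p - p'‖ := by
        have e2 : w θ p - w θ' p' = (w θ p - w θ' p) + (w θ' p - w θ' p') := by ring
        rw [e2]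
        exact (abs_add_le _ _).trans (add_le_add (UU_theta hρ0.le hk β θ θ' _) (hwl θ' p p'))
      refine e1.trans ?_
      have e2 : |θ - θ'| ≤ dist (θ, p) (θ', p') := le_max_left _ _
      have e3 : ‖p - p'‖ ≤ dist (θ, p) (θ', p') := by
        rw [← dist_eq_norm]
        exact le_max_right _ _
      have e4 := mul_le_mul_of_nonneg_left e3 hC0
      linarith
    exact h1.continuous
  have hwr : ∀ θ p, w θ p ^ 2 ≤ ρ ^ 2 := fun θ p => UU_sq hρ0.le hρ1.le β θ _
  set P : ℝ × ℝ → ℂ := fun p => pr ρ (X (ch' p)) with hP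
  have hPl : ∀ p p', ‖P p - P p'‖ ≤ (22 * C) * ‖p - p'‖ := by
    intro p p'
    refine (pr_lip hρ0 _ _).trans ?_
    have e1 := hXl (ch' p) (ch' p')
    have e2 := hdist p p'
    nlinarith
  have hPre : ∀ᵐ x : ℝ × ℝ, DifferentiableAt ℝ (fun p => (P p).re) x := by
    have h1 : LipschitzWith (Real.toNNReal (22 * C)) fun p => (P p).re := by
      apply LipschitzWith.of_dist_le_mul
      intro p p'
      rw [Real.dist_eq, Real.coe_toNNReal _ (by positivity), ← Complex.sub_re, dist_eq_norm]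
      exact (Complex.abs_re_le_norm _).trans (hPl p p')
    exact h1.ae_differentiableAt
  have hPim : ∀ᵐ x : ℝ × ℝ, DifferentiableAt ℝ (fun p => (P p).im) x := by
    have h1 : LipschitzWith (Real.toNNReal (22 * C)) fun p => (P p).im := by
      apply LipschitzWith.of_dist_le_mul
      intro p p'
      rw [Real.dist_eq, Real.coe_toNNReal _ (by positivity), ← Complex.sub_im, dist_eq_norm]
      exact (Complex.abs_im_le_norm _).trans (hPl p p')
    exact h1.ae_differentiableAt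
  have hwd : ∀ᵐ x : ℝ × ℝ, ∀ᵐ θ : ℝ, DifferentiableAt ℝ (w θ) x := by
    have h1 : ∀ᵐ θ : ℝ, ∀ᵐ x : ℝ × ℝ, DifferentiableAt ℝ (w θ) x := by
      refine ae_of_all _ fun θ => ?_
      have h2 : LipschitzWith (Real.toNNReal C) (w θ) := by
        apply LipschitzWith.of_dist_le_mul
        intro p p'
        rw [Real.dist_eq, Real.coe_toNNReal _ hC0, dist_eq_norm]
        exact hwl θ p p'
      exact h2.ae_differentiableAt
    exact (Measure.ae_ae_comm (measurableSet_of_differentiableAt_with_param ℝ hwc)).1 h1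
  have hres : ∀ {p : ℝ × ℝ → Prop}, (∀ᵐ x : ℝ × ℝ, p x) → ∀ᵐ x ∂(volume.restrict Sqo), p x :=
    fun h => ae_restrict_of_ae h
  filter_upwards [hres hPre, hres hPim, hres hwd,
    self_mem_ae_restrict isOpen_Sqo.measurableSet] with x h1 h2 h3 hx
  have hxS : x ∈ Sq := Sqo_sub hx
  have hnear : ∀ᶠ p in 𝓝 x, ch' p = ch p := by
    filter_upwards [isOpen_Sqo.mem_nhds hx] with p hp
    simp only [hch']
    rw [sqc_eq (Sqo_sub hp)]
  have hre : (fun p => (pr ρ (X (ch p))).re) =ᶠ[𝓝 x] fun p => (P p).re := by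
    filter_upwards [hnear] with p hp
    simp only [hP]
    rw [hp]
  have him : (fun p => (pr ρ (X (ch p))).im) =ᶠ[𝓝 x] fun p => (P p).im := by
    filter_upwards [hnear] with p hp
    simp only [hP]
    rw [hp]
  have hx1 : pr ρ (X (ch x)) = P x := by
    simp only [hP, hch']
    rw [sqc_eq hxS]
  have hjac : jac (fun p => (pr ρ (X (ch p))).re) (fun p => (pr ρ (X (ch p))).im) x =
      jac (fun p => (P p).re) (fun p => (P p).im) x := by
    unfold jac
    rw [hre.fderiv_eq, him.fderiv_eq]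
  refine ⟨h1.congr_of_eventuallyEq hre, h2.congr_of_eventuallyEq him, ?_⟩
  rw [hjac, hx1]
  rcases (norm_pr_le hρ0 (X (ch' x))).lt_or_eq with h4 | h4
  · have hPx : ‖P x‖ < ρ := h4
    have heq : ∀ᶠ p in 𝓝 x, T ρ (fun θ => w θ p) (P p) = 0 := by
      have hPc : Continuous P := by
        have h5 : LipschitzWith (Real.toNNReal (22 * C)) P := by
          apply LipschitzWith.of_dist_le_mul
          intro p p'
          rw [dist_eq_norm, dist_eq_norm, Real.coe_toNNReal _ (by positivity)]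
          exact hPl p p'
        exact h5.continuous
      filter_upwards [(hPc.norm.tendsto x).eventually (gt_mem_nhds hPx)] with p hp
      have h5 : P p = X (ch' p) := pr_eq hρ0 (lt_of_pr hρ0 hp)
      rw [h5]
      exact hX (ch' p)
    apply jac_le_of_lt hρ0 hρ hwc hwr hwl hPl hPx h1 h2 h3 heq (g.pos_E x hxS) (g.pos_det x hxS)
    intro θ v
    refine UU_deriv hρ0.le hρ1 β θ (g := g) (ch := ch') ?_ hx v
    intro p hp q hq
    simp only [hch']
    rw [sqc_eq hp, sqc_eq hq]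
    exact hch p hp q hq
  · rw [jac_eq_zero hρ0 h4 (fun p => norm_pr_le hρ0 _) h1 h2]
    positivity

/-- **Fillings of the boundary of a small cap.** -/
theorem cap_area (S : OrientedSurface M) {ρ k : ℝ} (hρ0 : 0 < ρ) (hk0 : 0 ≤ k)
    (hk : k ^ 2 + ρ ^ 2 = 1) (hρ : ρ ^ 2 ≤ 1 / 3)
    (hβ : ∀ s t : ℝ, arccos (k ^ 2 + ρ ^ 2 * cos (s - t)) ≤
      dist (S.boundary (s : AddCircle (2 * π))) (S.boundary (t : AddCircle (2 * π)))) :
    2 * π * (1 - k) ≤ S.area := by
  have hρ1 : ρ < 1 := by nlinarith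
  set β : ℝ → M := fun t => S.boundary (t : AddCircle (2 * π)) with hβdef
  have hBM := UU_BM hρ0.le hk β
  have hsq := fun q θ => UU_sq hρ0.le hρ1.le β θ q
  choose X hX using fun q => exists_zero hρ0.le hρ (hBM q) (hsq q)
  have hXl : ∀ q q', ‖X q - X q'‖ ≤ 11 * dist q q' := fun q q' =>
    zero_lip hρ0.le hρ (hBM q) (hsq q) (hBM q') (hX q) (hX q') fun θ => UU_lip ρ β θ q q'
  have hXb : ∀ s, X (β s) = ⟨ρ * cos s, ρ * sin s⟩ := by
    intro s
    have h1 := T_bdry (u := fun θ => UU ρ β θ (β s)) hρ0.le s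
      (fun θ => UU_bdry hρ0.le hk hβ θ s)
    have h2 := zero_lip hρ0.le hρ (hBM (β s)) (hsq (β s)) (hBM (β s)) (hX (β s)) h1 (δ := 0)
      (fun θ => by rw [sub_self, abs_zero])
    rw [mul_zero] at h2
    exact sub_eq_zero.1 (norm_le_zero_iff.1 h2)
  set Y : M → ℂ := fun q => lamb (pr ρ (X q)) with hY
  have hYl : ∀ q q', ‖Y q - Y q'‖ ≤ 88 * dist q q' := by
    intro q q'
    have e1 := lamb_lip hρ0.le hρ (norm_pr_le hρ0 (X q)) (norm_pr_le hρ0 (X q'))
    have e2 := pr_lip hρ0 (X q) (X q')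
    have e3 := hXl q q'
    simp only [hY]
    linarith
  have hnb : ∀ s : ℝ, ‖(⟨ρ * cos s, ρ * sin s⟩ : ℂ)‖ ^ 2 = ρ ^ 2 := by
    intro s
    rw [normsq]
    linear_combination ρ ^ 2 * sin_sq_add_cos_sq s
  have hnb' : ∀ s : ℝ, ‖(⟨ρ * cos s, ρ * sin s⟩ : ℂ)‖ = ρ := fun s =>
    (pow_left_inj₀ (norm_nonneg _) hρ0.le two_ne_zero).1 (hnb s)
  have hYb : ∀ s, Y (β s) = ((lam (ρ ^ 2) : ℝ) : ℂ) * ⟨ρ * cos s, ρ * sin s⟩ := by
    intro s
    simp only [hY]
    rw [hXb, pr_eq hρ0 (hnb' s).le]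
    unfold lamb
    rw [hnb]
  set L : ℝ := (lam (ρ ^ 2) * ρ / 88) with hL
  have hUb : ∀ s : ℝ, (Y (β s)).re / 88 = L * cos ((1 : ℕ) * s) := by
    intro s
    rw [hYb, Complex.re_ofReal_mul, hL]
    push_cast
    rw [one_mul]
    ring
  have hWb : ∀ s : ℝ, (Y (β s)).im / 88 = L * sin ((1 : ℕ) * s) := by
    intro s
    rw [hYb, Complex.im_ofReal_mul, hL]
    push_cast
    rw [one_mul]
    ring
  have hmain := area_ge_of_cal S ({()} : Finset Unit) (fun _ => (88 : ℝ) ^ 2)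
    (fun _ q => (Y q).re / 88) (fun _ q => (Y q).im / 88) ?_ ?_ ?_ (2 * π * (1 - k)) ?_
  · exact hmain
  · intro _ x y
    have e1 := hYl x y
    have e2 := Complex.abs_re_le_norm (Y x - Y y)
    rw [Complex.sub_re] at e2
    rw [← sub_div, abs_div, abs_of_pos (by norm_num : (0 : ℝ) < 88), div_le_iff₀ (by norm_num)]
    linarith
  · intro _ x y
    have e1 := hYl x y
    have e2 := Complex.abs_im_le_norm (Y x - Y y)
    rw [Complex.sub_im] at e2
    rw [← sub_div, abs_div, abs_of_pos (by norm_num : (0 : ℝ) < 88), div_le_iff₀ (by norm_num)]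
    linarith
  · intro j
    have h1 := chart_ae hρ0 hk hρ hX hXl (S.metric j) (S.chart j) (S.dist_le j)
    filter_upwards [h1] with x hx
    obtain ⟨hx1, hx2, hx3⟩ := hx
    rw [Finset.sum_singleton]
    have hn : ‖pr ρ (X (S.chart j x))‖ ^ 2 = (pr ρ (X (S.chart j x))).re ^ 2 +
      (pr ρ (X (S.chart j x))).im ^ 2 := normsq _
    have hn1 : (pr ρ (X (S.chart j x))).re ^ 2 + (pr ρ (X (S.chart j x))).im ^ 2 < 1 := by
      rw [← hn]
      have := norm_pr_le hρ0 (X (S.chart j x))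
      have h0 := norm_nonneg (pr ρ (X (S.chart j x)))
      nlinarith
    obtain ⟨hd1, hd2, hj⟩ := jac_lamb hx1 hx2 hn1
    have e1 : (fun p => (Y (S.chart j p)).re / 88) = fun p => (1 / 88 : ℝ) *
        (lam ((pr ρ (X (S.chart j p))).re ^ 2 + (pr ρ (X (S.chart j p))).im ^ 2) *
          (pr ρ (X (S.chart j p))).re) := by
      funext p
      simp only [hY]
      unfold lamb
      rw [Complex.re_ofReal_mul, normsq]
      ring
    have e2 : (fun p => (Y (S.chart j p)).im / 88) = fun p => (1 / 88 : ℝ) *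
        (lam ((pr ρ (X (S.chart j p))).re ^ 2 + (pr ρ (X (S.chart j p))).im ^ 2) *
          (pr ρ (X (S.chart j p))).im) := by
      funext p
      simp only [hY]
      unfold lamb
      rw [Complex.im_ofReal_mul, normsq]
      ring
    have e3 : (88 : ℝ) ^ 2 * jac (fun p => (Y (S.chart j p)).re / 88)
        (fun p => (Y (S.chart j p)).im / 88) x =
        jac (fun p => lam ((pr ρ (X (S.chart j p))).re ^ 2 + (pr ρ (X (S.chart j p))).im ^ 2) *
          (pr ρ (X (S.chart j p))).re) (fun p => lam ((pr ρ (X (S.chart j p))).re ^ 2 +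
          (pr ρ (X (S.chart j p))).im ^ 2) * (pr ρ (X (S.chart j p))).im) x := by
      rw [e1, e2]
      unfold jac
      rw [fderiv_const_mul hd1, fderiv_const_mul hd2]
      simp only [ContinuousLinearMap.smul_apply, smul_eq_mul]
      ring
    rw [e3, hj, ← hn]
    have hw : 0 < √(1 - ‖pr ρ (X (S.chart j x))‖ ^ 2) := by
      apply sqrt_pos.2
      rw [hn]
      linarith
    rw [div_le_iff₀ hw]
    calc _ ≤ _ := hx3
      _ = _ := mul_comm _ _
  · have h1 : (fun t : ℝ => (Y (S.boundary (t : AddCircle (2 * π)))).re / 88) =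
        fun t => L * cos ((1 : ℕ) * t) := funext hUb
    have h2 : (fun t : ℝ => (Y (S.boundary (t : AddCircle (2 * π)))).im / 88) =
        fun t => L * sin ((1 : ℕ) * t) := funext hWb
    have h3 := ((loopSum_exact S.brk L 1).div_const 2).const_mul ((88 : ℝ) ^ 2)
    rw [brk_diff S] at h3
    simp only [Finset.sum_singleton]
    rw [h1, h2]
    have h4 : (88 : ℝ) ^ 2 * (L ^ 2 * ((1 : ℕ) : ℝ) * (2 * π) / 2) = 2 * π * (1 - k) := by
      rw [hL]
      have e1 := lam_sq (s := ρ ^ 2)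
      have e2 : √(1 - ρ ^ 2) = k := by
        rw [show 1 - ρ ^ 2 = k ^ 2 by linarith]
        exact sqrt_sq hk0
      rw [e2] at e1
      have e3 : (88 : ℝ) ^ 2 * ((lam (ρ ^ 2) * ρ / 88) ^ 2 * ((1 : ℕ) : ℝ) * (2 * π) / 2) =
        lam (ρ ^ 2) ^ 2 * ρ ^ 2 * π := by
        push_cast
        ring
      rw [e3, e1, show ρ ^ 2 = (1 - k) * (1 + k) by linarith]
      have e4 : (1 + k) ≠ 0 := by positivity
      field_simp
    rw [← h4]
    exact h3

end

end Pool.Agent.Q183.CAP
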