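import Pool.Agent.Q183.CAP.H

/-!
# Surfaces which are round outside a ball
-/

set_option autoImplicit false

open Real MeasureTheory Set Filter Topology InnerProductGeometry

namespace Pool.Agent.Q183.CAP

open Pool.Agent.H115R3.Filling

/-- Euclidean space -/
abbrev E3 := EuclideanSpace ℝ (Fin 3)

/-- the circle of radius `R` about `c` on the sphere, `c, e₁, e₂` orthonormal -/
noncomputable def circ (R : ℝ) (c e₁ e₂ : E3) (s : ℝ) : E3 :=
  cos R • c + sin R • (cos s • e₁ + sin s • e₂)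

/-- the points of the closed hemisphere with pole `n` outside the open ball of radius `R` about `c` -/
def Outside (n c : E3) (R : ℝ) : Set E3 := {x | ‖x‖ = 1 ∧ 0 ≤ inner ℝ x n ∧ R ≤ angle x c}

/-- the great circle segment from `x` to `y` does not meet the open ball of radius `R` about `c` -/
def Free (c : E3) (R : ℝ) (x y : E3) : Prop :=
  ∀ a b : ℝ, 0 ≤ a → 0 ≤ b → a • x + b • y ≠ 0 → R ≤ angle (a • x + b • y) c

section

variable {c e₁ e₂ : E3} {R : ℝ}

theorem inner_circ (h : Orthonormal ℝ ![c, e₁, e₂]) (s t : ℝ) :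
    inner ℝ (circ R c e₁ e₂ s) (circ R c e₁ e₂ t) = cos R ^ 2 + sin R ^ 2 * cos (s - t) := by
  have h0 := h.1
  have hc : inner ℝ c c = (1 : ℝ) := by
    have hc1 : ‖c‖ = 1 := h0 0
    rw [real_inner_self_eq_norm_sq, hc1]
    norm_num
  have h1 : inner ℝ e₁ e₁ = (1 : ℝ) := by
    rw [real_inner_self_eq_norm_sq]
    have := h0 1
    simp only [Matrix.cons_val_one, Matrix.cons_val_zero] at this
    rw [this]
    norm_num
  have h2 : inner ℝ e₂ e₂ = (1 : ℝ) := by
    rw [real_inner_self_eq_norm_sq]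
    have := h0 2
    simp only [Matrix.cons_val] at this
    rw [this]
    norm_num
  have h3 : inner ℝ c e₁ = (0 : ℝ) := h.2 (show (0 : Fin 3) ≠ 1 by decide)
  have h4 : inner ℝ c e₂ = (0 : ℝ) := h.2 (show (0 : Fin 3) ≠ 2 by decide)
  have h5 : inner ℝ e₁ e₂ = (0 : ℝ) := h.2 (show (1 : Fin 3) ≠ 2 by decide)
  have h3' : inner ℝ e₁ c = (0 : ℝ) := by rw [real_inner_comm]; exact h3
  have h4' : inner ℝ e₂ c = (0 : ℝ) := by rw [real_inner_comm]; exact h4
  have h5' : inner ℝ e₂ e₁ = (0 : ℝ) := by rw [real_inner_comm]; exact h5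
  unfold circ
  simp only [inner_add_left, inner_add_right, real_inner_smul_left, real_inner_smul_right, hc, h1,
    h2, h3, h4, h5, h3', h4', h5']
  rw [cos_sub]
  ring

theorem inner_circ_c (h : Orthonormal ℝ ![c, e₁, e₂]) (s : ℝ) :
    inner ℝ (circ R c e₁ e₂ s) c = cos R := by
  have h0 := h.1
  have hc : inner ℝ c c = (1 : ℝ) := by
    have hc1 : ‖c‖ = 1 := h0 0
    rw [real_inner_self_eq_norm_sq, hc1]
    norm_num
  have h3' : inner ℝ e₁ c = (0 : ℝ) := h.2 (show (1 : Fin 3) ≠ 0 by decide)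
  have h4' : inner ℝ e₂ c = (0 : ℝ) := h.2 (show (2 : Fin 3) ≠ 0 by decide)
  unfold circ
  simp only [inner_add_left, real_inner_smul_left, hc, h3', h4']
  ring

theorem norm_circ (h : Orthonormal ℝ ![c, e₁, e₂]) (s : ℝ) : ‖circ R c e₁ e₂ s‖ = 1 := by
  have h1 := inner_circ (R := R) h s s
  rw [real_inner_self_eq_norm_sq, sub_self, cos_zero, mul_one, cos_sq_add_sin_sq] at h1
  have h2 := norm_nonneg (circ R c e₁ e₂ s)
  nlinarith

theorem angle_circ (h : Orthonormal ℝ ![c, e₁, e₂]) (s t : ℝ) :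
    angle (circ R c e₁ e₂ s) (circ R c e₁ e₂ t) =
      arccos (cos R ^ 2 + sin R ^ 2 * cos (s - t)) := by
  unfold angle
  rw [norm_circ h, norm_circ h, inner_circ h, mul_one, div_one]

/-- Points of the plane of two points of the circle, on the other side. -/
theorem angle_ge_of_comb (hc : ‖c‖ = 1) (hR0 : 0 ≤ R) (hR1 : R ≤ π / 2) {p q : E3} (hp : ‖p‖ = 1)
    (hq : ‖q‖ = 1) (hpc : inner ℝ p c = cos R) (hqc : inner ℝ q c = cos R) {A B : ℝ} (hA : 0 ≤ A)
    (hB : 0 ≤ B) (hne : A • p - B • q ≠ 0) : R ≤ angle (A • p - B • q) c := by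
  have h1 : |A - B| ≤ ‖A • p - B • q‖ := by
    have := abs_norm_sub_norm_le (A • p) (B • q)
    rw [norm_smul, norm_smul, hp, hq, mul_one, mul_one, Real.norm_of_nonneg hA,
      Real.norm_of_nonneg hB] at this
    exact this
  have h2 : inner ℝ (A • p - B • q) c = (A - B) * cos R := by
    rw [inner_sub_left, real_inner_smul_left, real_inner_smul_left, hpc, hqc]
    ring
  have h3 : 0 ≤ cos R := cos_nonneg_of_neg_pi_div_two_le_of_le (by linarith) hR1
  have h4 : 0 < ‖A • p - B • q‖ := norm_pos_iff.2 hne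
  have h5 : inner ℝ (A • p - B • q) c / (‖A • p - B • q‖ * ‖c‖) ≤ cos R := by
    rw [hc, mul_one, h2, div_le_iff₀ h4]
    have h6 : (A - B) * cos R ≤ |A - B| * cos R := mul_le_mul_of_nonneg_right (le_abs_self _) h3
    have h7 : |A - B| * cos R ≤ ‖A • p - B • q‖ * cos R := mul_le_mul_of_nonneg_right h1 h3
    linarith
  unfold angle
  rw [← arccos_cos hR0 (by linarith [pi_pos])]
  exact arccos_le_arccos h5

/-- The distance of two points of the circle in the inner part is at least their angle. -/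
theorem dist_ge_aux {K M : Type} [MetricSpace K] [MetricSpace M] {n : E3} (hc : ‖c‖ = 1)
    (hR0 : 0 ≤ R) (hR1 : R < π / 2) {j : K → M} (hj : ∀ x y, dist (j x) (j y) ≤ dist x y)
    {ι : E3 → M} (hι : ∀ x ∈ Outside n c R, ∀ y ∈ Outside n c R, Free c R x y →
      dist (ι x) (ι y) ≤ angle x y)
    (hno : ∀ x y, ‖x‖ = 1 → ‖y‖ = 1 → inner ℝ x n = 0 → inner ℝ y n = 0 →
      angle x y ≤ dist (ι x) (ι y)) {p q : E3} (hp : ‖p‖ = 1) (hq : ‖q‖ = 1)
    (hpc : inner ℝ p c = cos R) (hqc : inner ℝ q c = cos R) {x y : K} (hx : ι p = j x)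
    (hy : ι q = j y) (hpn : 0 ≤ inner ℝ p n) (hqn : 0 < inner ℝ q n) :
    angle p q ≤ dist x y := by
  by_cases hpq : p = q
  · rw [hpq, angle_self]
    · exact dist_nonneg
    · rw [← norm_ne_zero_iff, hq]
      exact one_ne_zero
  have hcosR : 0 < cos R := cos_pos_of_mem_Ioo ⟨by linarith [pi_pos], hR1⟩
  set α := inner ℝ p n with hα
  set β := inner ℝ q n with hβ
  set v : E3 := β • p - α • q with hv
  have hv0 : v ≠ 0 := by
    intro h0
    have h1 : β • p = α • q := sub_eq_zero.1 h0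
    have h2 : β = α := by
      have h3 := congrArg norm h1
      rw [norm_smul, norm_smul, hp, hq, mul_one, mul_one, Real.norm_of_nonneg hqn.le,
        Real.norm_of_nonneg hpn] at h3
      exact h3
    rw [← h2] at h1
    exact hpq (smul_right_injective E3 hqn.ne' h1)
  have hvn : 0 < ‖v‖ := norm_pos_iff.2 hv0
  set e : E3 := (1 / ‖v‖) • v with he
  have hen : ‖e‖ = 1 := by
    rw [he, norm_smul, norm_div, norm_one, norm_norm]
    field_simp
  have hvin : inner ℝ v n = 0 := by
    rw [hv, inner_sub_left, real_inner_smul_left, real_inner_smul_left, ← hα, ← hβ]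
    ring
  have hein : inner ℝ e n = 0 := by
    rw [he, real_inner_smul_left, hvin, mul_zero]
  have hve : v = ‖v‖ • e := by
    rw [he, smul_smul]
    field_simp
    rw [one_smul]
  -- the arcs
  have hfree1 : Free c R e p := by
    intro a b ha hb hne
    have h1 : a • e + b • p = (a * β / ‖v‖ + b) • p - (a * α / ‖v‖) • q := by
      rw [he, hv, smul_smul, smul_sub, smul_smul, smul_smul]
      module
    rw [h1] at hne ⊢
    exact angle_ge_of_comb hc hR0 hR1.le hp hq hpc hqc (by positivity) (by positivity) hne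
  have hfree2 : Free c R q (-e) := by
    intro a b ha hb hne
    have h1 : a • q + b • (-e) = (a + b * α / ‖v‖) • q - (b * β / ‖v‖) • p := by
      rw [he, hv, ← smul_neg, smul_smul, neg_sub, smul_sub, smul_smul, smul_smul]
      module
    rw [h1] at hne ⊢
    exact angle_ge_of_comb hc hR0 hR1.le hq hp hqc hpc (by positivity) (by positivity) hne
  have he0 : e ≠ 0 := by
    rw [← norm_ne_zero_iff, hen]
    exact one_ne_zero
  have hp0 : p ≠ 0 := by
    rw [← norm_ne_zero_iff, hp]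
    exact one_ne_zero
  have hq0 : q ≠ 0 := by
    rw [← norm_ne_zero_iff, hq]
    exact one_ne_zero
  have heO : e ∈ Outside n c R := by
    refine ⟨hen, hein.ge, ?_⟩
    have := hfree1 1 0 zero_le_one le_rfl (by simpa using he0)
    simpa using this
  have hneO : -e ∈ Outside n c R := by
    refine ⟨by rw [norm_neg, hen], ?_, ?_⟩
    · rw [inner_neg_left, hein, neg_zero]
    · have := hfree2 0 1 le_rfl zero_le_one (by simpa using he0)
      simpa using this
  have hpO : p ∈ Outside n c R := by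
    refine ⟨hp, hpn, ?_⟩
    have := hfree1 0 1 le_rfl zero_le_one (by simpa using hp0)
    simpa using this
  have hqO : q ∈ Outside n c R := by
    refine ⟨hq, hqn.le, ?_⟩
    have := hfree2 1 0 zero_le_one le_rfl (by simpa using hq0)
    simpa using this
  have d1 := hι e heO p hpO hfree1
  have d2 := hι q hqO (-e) hneO hfree2
  have d3 := hno e (-e) hen (by rw [norm_neg, hen]) hein (by rw [inner_neg_left, hein, neg_zero])
  rw [angle_self_neg_of_nonzero he0] at d3
  have d4 := hj x y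
  rw [← hx, ← hy] at d4
  have d5 : dist (ι e) (ι (-e)) ≤ dist (ι e) (ι p) + dist (ι p) (ι q) + dist (ι q) (ι (-e)) :=
    dist_triangle4 _ _ _ _
  rw [angle_neg_right, angle_comm q e] at d2
  have hsum : angle e q = angle e p + angle p q := by
    apply angle_eq_angle_add_add_angle_add_of_mem_span hp0
    rw [Submodule.mem_span_pair]
    refine ⟨⟨‖v‖ / β, by positivity⟩, ⟨α / β, by positivity⟩, ?_⟩
    change (‖v‖ / β) • e + (α / β) • q = p
    have h1 : (‖v‖ / β) • e = (1 / β) • v := by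
      have h3 : (‖v‖ / β) • e = (1 / β) • (‖v‖ • e) := by
        rw [show (‖v‖ / β) = (1 / β) * ‖v‖ by ring, mul_smul]
      rw [h3, ← hve]
    rw [h1, hv, smul_sub, smul_smul, smul_smul]
    have h2 : 1 / β * β = 1 := by field_simp
    rw [h2, one_smul, one_div_mul_eq_div]
    abel
  linarith

/-- The boundary distances of the inner part. -/
theorem dist_ge {K M : Type} [MetricSpace K] [MetricSpace M] {n : E3}
    (h : Orthonormal ℝ ![c, e₁, e₂]) (hR0 : 0 ≤ R) (hR1 : R < π / 2)
    (hball : ∀ x : E3, ‖x‖ = 1 → angle x c ≤ R → 0 ≤ inner ℝ x n)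
    {j : K → M} (hj : ∀ x y, dist (j x) (j y) ≤ dist x y)
    {ι : E3 → M} (hι : ∀ x ∈ Outside n c R, ∀ y ∈ Outside n c R, Free c R x y →
      dist (ι x) (ι y) ≤ angle x y)
    (hno : ∀ x y, ‖x‖ = 1 → ‖y‖ = 1 → inner ℝ x n = 0 → inner ℝ y n = 0 →
      angle x y ≤ dist (ι x) (ι y)) {b : ℝ → K} (hb : ∀ s, ι (circ R c e₁ e₂ s) = j (b s))
    (s t : ℝ) : angle (circ R c e₁ e₂ s) (circ R c e₁ e₂ t) ≤ dist (b s) (b t) := by
  have hc : ‖c‖ = 1 := h.1 0
  have hang : ∀ u, angle (circ R c e₁ e₂ u) c = R := by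
    intro u
    unfold angle
    rw [norm_circ h, hc, inner_circ_c h, mul_one, div_one]
    exact arccos_cos hR0 (by linarith [pi_pos])
  have hpos : ∀ u, 0 ≤ inner ℝ (circ R c e₁ e₂ u) n := fun u =>
    hball _ (norm_circ h u) (hang u).le
  rcases (hpos t).lt_or_eq with ht | ht
  · exact dist_ge_aux hc hR0 hR1 hj hι hno (norm_circ h s) (norm_circ h t) (inner_circ_c h s)
      (inner_circ_c h t) (hb s) (hb t) (hpos s) ht
  · rcases (hpos s).lt_or_eq with hs | hs
    · rw [angle_comm, dist_comm]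
      exact dist_ge_aux hc hR0 hR1 hj hι hno (norm_circ h t) (norm_circ h s) (inner_circ_c h t)
        (inner_circ_c h s) (hb t) (hb s) (hpos t) hs
    · have h1 := hno _ _ (norm_circ h s) (norm_circ h t) hs.symm ht.symm
      rw [hb, hb] at h1
      exact h1.trans (hj _ _)

end

/-- The ball of radius `R` is a minimal filling of its boundary. -/
theorem ball_minimal {K : Type} [MetricSpace K] (S : OrientedSurface K) {R : ℝ} (hR0 : 0 < R)
    (hR1 : R < π / 2) (hR : 3 * sin R ^ 2 ≤ 1) {c e₁ e₂ : E3} (h : Orthonormal ℝ ![c, e₁, e₂])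
    (hd : ∀ s t : ℝ, angle (circ R c e₁ e₂ s) (circ R c e₁ e₂ t) ≤
      dist (S.boundary (s : AddCircle (2 * π))) (S.boundary (t : AddCircle (2 * π)))) :
    2 * π * (1 - cos R) ≤ S.area := by
  have h1 : 0 < sin R := sin_pos_of_pos_of_lt_pi hR0 (by linarith [pi_pos])
  have h2 : 0 ≤ cos R := cos_nonneg_of_neg_pi_div_two_le_of_le (by linarith) hR1.le
  refine cap_area S h1 h2 (cos_sq_add_sin_sq R) (by linarith) fun s t => ?_
  rw [← angle_circ h]
  exact hd s t

/-- Surfaces which are round outside the ball of radius `R`. -/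
theorem round_outside {K M : Type} [MetricSpace K] [MetricSpace M] (S : OrientedSurface K) {R : ℝ}
    (hR0 : 0 < R) (hR1 : R < π / 2) (hR : 3 * sin R ^ 2 ≤ 1) {n c e₁ e₂ : E3}
    (h : Orthonormal ℝ ![c, e₁, e₂])
    (hball : ∀ x : E3, ‖x‖ = 1 → angle x c ≤ R → 0 ≤ inner ℝ x n)
    {j : K → M} (hj : ∀ x y, dist (j x) (j y) ≤ dist x y)
    {ι : E3 → M} (hι : ∀ x ∈ Outside n c R, ∀ y ∈ Outside n c R, Free c R x y →
      dist (ι x) (ι y) ≤ angle x y)
    (hglue : ∀ s : ℝ, ι (circ R c e₁ e₂ s) = j (S.boundary (s : AddCircle (2 * π))))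
    (hno : ∀ x y, ‖x‖ = 1 → ‖y‖ = 1 → inner ℝ x n = 0 → inner ℝ y n = 0 →
      angle x y ≤ dist (ι x) (ι y)) :
    2 * π * (1 - cos R) ≤ S.area := by
  apply ball_minimal S hR0 hR1 hR h
  exact dist_ge h hR0.le hR1 hball hj hι hno hglue

end Pool.Agent.Q183.CAP
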